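import Pool.Agent.V11328.DG.Mom

/-! The second moment is at most four times the square of the first. -/

open Filter Topology Finset

namespace Pool.Agent.V11328.DG

lemma choose_ratio (n r : ℕ) : ∀ s : ℕ, s ≤ r →
    n.choose (r - s) * (n - r) ^ s ≤ n.choose r * r ^ s := by
  intro s
  induction s with
  | zero => intro _; simp
  | succ s ih =>
    intro hs
    have h1 := ih (by omega)
    obtain ⟨k, hk⟩ : ∃ k, r - s = k + 1 := ⟨r - s - 1, by omega⟩
    have h2 : r - (s + 1) = k := by omega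
    rw [hk] at h1
    rw [h2]
    have h3 : n.choose k * (n - r) ≤ n.choose (k + 1) * r := by
      have h4 := Nat.choose_succ_right_eq n k
      calc n.choose k * (n - r) ≤ n.choose k * (n - k) := Nat.mul_le_mul_left _ (by omega)
        _ = n.choose (k + 1) * (k + 1) := h4.symm
        _ ≤ n.choose (k + 1) * r := Nat.mul_le_mul_left _ (by omega)
    calc n.choose k * (n - r) ^ (s + 1) = (n.choose k * (n - r)) * (n - r) ^ s := by ring
      _ ≤ (n.choose (k + 1) * r) * (n - r) ^ s := Nat.mul_le_mul_right _ h3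
      _ = (n.choose (k + 1) * (n - r) ^ s) * r := by ring
      _ ≤ (n.choose r * r ^ s) * r := Nat.mul_le_mul_right _ h1
      _ = n.choose r * r ^ (s + 1) := by ring

/-- bound for one term of the second moment -/
lemma term_le {q : ℝ} (hq0 : 0 < q) (hq1 : q < 1) {n r s : ℕ} (hs : s ≤ r) (hn : 2 * r < n)
    (hx : (r : ℝ) * q ^ r ≤ 1 / 4) (hx' : q ^ r ≤ 1 / 2) :
    term n r q s ≤ n.choose r * (1 - q ^ r) ^ (2 * (n - r)) * 2 *
      (((r : ℝ) ^ 2 / (n - r)) ^ s *
        Real.exp (n * q ^ r * q ^ (r - s) / (1 - q ^ r) ^ 2)) := by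
  set x := q ^ r with hxdef
  have hx0 : 0 < x := pow_pos hq0 r
  have h1x : 0 < 1 - x := by linarith
  have hnr : (0 : ℝ) < (n : ℝ) - r := by
    have : (r : ℝ) < n := by exact_mod_cast (by omega : r < n)
    linarith
  unfold term
  rw [← hxdef]
  -- binomial part
  have b1 : ((r.choose s * (n - r).choose (r - s) : ℕ) : ℝ) ≤
      n.choose r * ((r : ℝ) ^ 2 / (n - r)) ^ s := by
    have h1 : r.choose s ≤ r ^ s := Nat.choose_le_pow r s
    have h2 : (n - r).choose (r - s) ≤ n.choose (r - s) := Nat.choose_le_choose _ (Nat.sub_le _ _)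
    have h3 := choose_ratio n r s hs
    have h4 : r.choose s * (n - r).choose (r - s) * (n - r) ^ s ≤ n.choose r * (r ^ 2) ^ s := by
      calc r.choose s * (n - r).choose (r - s) * (n - r) ^ s
          ≤ r ^ s * n.choose (r - s) * (n - r) ^ s :=
            Nat.mul_le_mul_right _ (Nat.mul_le_mul h1 h2)
        _ = r ^ s * (n.choose (r - s) * (n - r) ^ s) := by ring
        _ ≤ r ^ s * (n.choose r * r ^ s) := Nat.mul_le_mul_left _ h3
        _ = n.choose r * (r ^ 2) ^ s := by ring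
    have h5 : ((r.choose s * (n - r).choose (r - s) : ℕ) : ℝ) * ((n : ℝ) - r) ^ s ≤
        n.choose r * ((r : ℝ) ^ 2) ^ s := by
      have h6 : ((n : ℝ) - r) = ((n - r : ℕ) : ℝ) := by
        rw [Nat.cast_sub (by omega)]
      rw [h6]
      exact_mod_cast h4
    rw [div_pow, ← mul_div_assoc, le_div_iff₀ (by positivity)]
    exact h5
  -- power part
  set z := q ^ (2 * r - s) with hz
  have hz0 : 0 < z := pow_pos hq0 _
  have hzx : z = x * q ^ (r - s) := by
    rw [hz, hxdef, ← pow_add]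
    congr 1
    omega
  have b2 : (1 - 2 * x + z) ^ (n - (2 * r - s)) ≤
      (1 - x) ^ (2 * (n - r)) * 2 * Real.exp (n * x * q ^ (r - s) / (1 - x) ^ 2) := by
    set N := n - (2 * r - s) with hN
    set y := z / (1 - x) ^ 2 with hy
    have hy0 : 0 < y := by positivity
    have e1 : 1 - 2 * x + z ≤ (1 - x) ^ 2 * (1 + y) := by
      rw [hy, mul_add, mul_one, mul_div_cancel₀ _ (by positivity)]
      nlinarith
    have hbase : 0 ≤ 1 - 2 * x + z := by linarith
    have e2 : (1 - 2 * x + z) ^ N ≤ ((1 - x) ^ 2) ^ N * (1 + y) ^ N := by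
      rw [← mul_pow]
      exact pow_le_pow_left₀ hbase e1 N
    have e3 : (1 + y) ^ N ≤ Real.exp (n * x * q ^ (r - s) / (1 - x) ^ 2) := by
      have h1 : (1 + y) ^ N ≤ Real.exp y ^ N := by
        refine pow_le_pow_left₀ (by positivity) ?_ N
        have := Real.add_one_le_exp y
        linarith
      refine h1.trans ?_
      rw [← Real.exp_nat_mul]
      refine Real.exp_le_exp.2 ?_
      have h2 : (N : ℝ) ≤ n := by exact_mod_cast (by omega : N ≤ n)
      calc (N : ℝ) * y ≤ n * y := mul_le_mul_of_nonneg_right h2 hy0.le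
        _ = n * x * q ^ (r - s) / (1 - x) ^ 2 := by rw [hy, hzx]; ring
    have e4 : ((1 - x) ^ 2) ^ N ≤ (1 - x) ^ (2 * (n - r)) * 2 := by
      have h1 : ((1 - x) ^ 2) ^ N * (1 - x) ^ (2 * r) ≤ (1 - x) ^ (2 * (n - r)) := by
        rw [← pow_mul, ← pow_add]
        exact pow_le_pow_of_le_one h1x.le (by linarith) (by omega)
      have h2 : (1 / 2 : ℝ) ≤ (1 - x) ^ (2 * r) := by
        have h3 := one_add_mul_le_pow (a := -x) (by linarith) (2 * r)
        push_cast at h3
        have h4 : (1 : ℝ) + -x = 1 - x := by ring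
        rw [h4] at h3
        nlinarith
      have h5 : 0 ≤ ((1 - x) ^ 2) ^ N := by positivity
      nlinarith
    calc (1 - 2 * x + z) ^ N ≤ ((1 - x) ^ 2) ^ N * (1 + y) ^ N := e2
      _ ≤ ((1 - x) ^ (2 * (n - r)) * 2) * Real.exp (n * x * q ^ (r - s) / (1 - x) ^ 2) :=
          mul_le_mul e4 e3 (by positivity) (by positivity)
  calc ((r.choose s * (n - r).choose (r - s) : ℕ) : ℝ) * (1 - 2 * x + z) ^ (n - (2 * r - s))
      ≤ (n.choose r * ((r : ℝ) ^ 2 / (n - r)) ^ s) *
        ((1 - x) ^ (2 * (n - r)) * 2 * Real.exp (n * x * q ^ (r - s) / (1 - x) ^ 2)) :=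
        mul_le_mul b1 b2 (pow_nonneg (by linarith) _) (by positivity)
    _ = _ := by ring

lemma term_zero {q : ℝ} (hq0 : 0 < q) (hq1 : q < 1) {n r : ℕ} (hn : 2 * r < n)
    (hx : (r : ℝ) * q ^ r ≤ 1 / 4) (hx' : q ^ r ≤ 1 / 2) :
    term n r q 0 ≤ n.choose r * (1 - q ^ r) ^ (2 * (n - r)) * 2 := by
  set x := q ^ r with hxdef
  have hx0 : 0 < x := pow_pos hq0 r
  have h1x : 0 < 1 - x := by linarith
  unfold term
  rw [← hxdef]
  have h1 : q ^ (2 * r - 0) = x ^ 2 := by rw [hxdef, Nat.sub_zero, mul_comm, pow_mul]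
  rw [h1, Nat.choose_zero_right, one_mul, Nat.sub_zero, Nat.sub_zero]
  have h2 : (1 - 2 * x + x ^ 2) = (1 - x) ^ 2 := by ring
  rw [h2, mul_assoc]
  refine mul_le_mul ?_ ?_ (by positivity) (by positivity)
  · exact_mod_cast Nat.choose_le_choose r (Nat.sub_le n r)
  · have h3 : ((1 - x) ^ 2) ^ (n - 2 * r) * (1 - x) ^ (2 * r) ≤ (1 - x) ^ (2 * (n - r)) := by
      rw [← pow_mul, ← pow_add]
      exact pow_le_pow_of_le_one h1x.le (by linarith) (by omega)
    have h4 : (1 / 2 : ℝ) ≤ (1 - x) ^ (2 * r) := by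
      have h3 := one_add_mul_le_pow (a := -x) (by linarith) (2 * r)
      push_cast at h3
      have h4 : (1 : ℝ) + -x = 1 - x := by ring
      rw [h4] at h3
      nlinarith
    have h5 : 0 ≤ ((1 - x) ^ 2) ^ (n - 2 * r) := by positivity
    nlinarith

end Pool.Agent.V11328.DG
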