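import Pool.Agent.V11328.DG.Anal

/-! The second moment is at most four times the square of the first, for suitable `n`. -/

open Filter Topology Finset

namespace Pool.Agent.V11328.DG

lemma lam_le {x : ℝ} {n r : ℕ} (hr : 5 ≤ r) (hn : r < n) (hx0 : 0 < x) (hx1 : x < 1)
    (hrx : (r : ℝ) * x ≤ 1 / 4) (h : 1 / 24 ≤ (n.choose r : ℝ) * (1 - x) ^ (n - r)) :
    (n : ℝ) * x ≤ r * Real.log n := by
  have hn0 : (0 : ℝ) < n := by exact_mod_cast (by omega : 0 < n)
  have h1 : (n.choose r : ℝ) ≤ (n : ℝ) ^ r / (r.factorial : ℝ) := Nat.choose_le_pow_div r n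
  have h2 : (1 - x) ^ (n - r) ≤ Real.exp (-(x * ((n : ℝ) - r))) := by
    have h3 : (1 - x) ^ (n - r) ≤ Real.exp (-x) ^ (n - r) := by
      refine pow_le_pow_left₀ (by linarith) ?_ _
      have := Real.add_one_le_exp (-x)
      linarith
    refine h3.trans (le_of_eq ?_)
    rw [← Real.exp_nat_mul, Nat.cast_sub hn.le]
    congr 1
    ring
  have h3 : (120 : ℝ) ≤ (r.factorial : ℝ) := by
    have : Nat.factorial 5 ≤ r.factorial := Nat.factorial_le hr
    have h4 : Nat.factorial 5 = 120 := rfl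
    rw [h4] at this
    exact_mod_cast this
  have h4 : (n : ℝ) ^ r / (r.factorial : ℝ) ≤ (n : ℝ) ^ r / 120 :=
    div_le_div_of_nonneg_left (by positivity) (by norm_num) h3
  have h5 : (1 / 24 : ℝ) ≤ (n : ℝ) ^ r / 120 * Real.exp (-(x * ((n : ℝ) - r))) :=
    h.trans (mul_le_mul (h1.trans h4) h2 (pow_nonneg (by linarith) _) (by positivity))
  have h6 : Real.exp (n * x) ≤ (n : ℝ) ^ r := by
    have e1 : Real.exp (n * x) = Real.exp (x * ((n : ℝ) - r)) * Real.exp (r * x) := by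
      rw [← Real.exp_add]
      congr 1
      ring
    have e2 : Real.exp (r * x) ≤ 3 := by
      refine (Real.exp_le_exp.2 (hrx.trans (by norm_num : (1 / 4 : ℝ) ≤ 1))).trans ?_
      exact Real.exp_one_lt_d9.le.trans (by norm_num)
    have e3 : Real.exp (x * ((n : ℝ) - r)) ≤ (n : ℝ) ^ r / 5 := by
      have e4 : Real.exp (-(x * ((n : ℝ) - r))) * Real.exp (x * ((n : ℝ) - r)) = 1 := by
        rw [← Real.exp_add]
        simp
      have e5 := mul_le_mul_of_nonneg_right h5 (Real.exp_pos (x * ((n : ℝ) - r))).le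
      rw [mul_assoc, e4] at e5
      linarith
    rw [e1]
    have e6 : (0 : ℝ) ≤ (n : ℝ) ^ r := by positivity
    calc Real.exp (x * ((n : ℝ) - r)) * Real.exp (r * x) ≤ ((n : ℝ) ^ r / 5) * 3 :=
          mul_le_mul e3 e2 (Real.exp_pos _).le (by positivity)
      _ ≤ (n : ℝ) ^ r := by linarith
  have h7 := Real.log_le_log (Real.exp_pos _) h6
  rw [Real.log_exp, Real.log_pow] at h7
  exact h7

/-- the exponent -/
lemma expo {L M lam c g q δ : ℝ} {r s k : ℕ} (hL : 0 < L) (hM : (1 - δ) * L ≤ M)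
    (hlam : lam ≤ r * L) (hlam0 : 0 ≤ lam) (hc : 0 < c) (hc2 : c ≤ 2) (hcg : c ≤ 1 + g / 8)
    (hq0 : 0 < q) (hq1 : q < 1) (hg : g = 1 - q) (hδ : δ = g / 8) (hs1 : 1 ≤ s) (hsr : s < r)
    (hk : (k : ℝ) ≤ g / 8 * r) (he : (r : ℝ) * q ^ k ≤ 1 / 16) (hf : 1 ≤ (r : ℝ) * g) :
    -(s * M) + lam * q ^ (r - s) * c ≤ -(L / 2) := by
  have hg0 : 0 < g := by linarith
  have hg1 : g < 1 := by linarith
  have hs1' : (1 : ℝ) ≤ s := by exact_mod_cast hs1
  have hr0 : (0 : ℝ) < r := by exact_mod_cast (by omega : 0 < r)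
  have hM' : -((s : ℝ) * M) ≤ -(s * ((1 - δ) * L)) := by nlinarith
  by_cases hcase : r - s ≤ k
  · have h1 : q ^ (r - s) ≤ q := by
      calc q ^ (r - s) ≤ q ^ 1 := pow_le_pow_of_le_one hq0.le hq1.le (by omega)
        _ = q := pow_one q
    have h2 : lam * q ^ (r - s) * c ≤ r * L * q * (1 + g / 8) := by
      have := mul_le_mul hlam h1 (pow_nonneg hq0.le _) (by positivity)
      exact mul_le_mul this hcg hc.le (by positivity)
    have h3 : (1 - g / 8) * r ≤ s := by
      have : (r : ℝ) ≤ s + k := by exact_mod_cast (by omega : r ≤ s + k)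
      nlinarith
    have h4 : (1 - g / 8) * r * (1 - δ) ≤ s * (1 - δ) :=
      mul_le_mul_of_nonneg_right h3 (by rw [hδ]; linarith)
    have h5 : q = 1 - g := by linarith
    have h6 : (1 / 2 : ℝ) ≤ (1 - g / 8) * r * (1 - δ) - r * q * (1 + g / 8) := by
      rw [hδ, h5]
      have : (1 - g / 8) * (r : ℝ) * (1 - g / 8) - r * (1 - g) * (1 + g / 8) =
          r * g * (5 / 8 + g / 64 + g / 8) := by ring
      rw [this]
      nlinarith
    nlinarith
  · have h1 : q ^ (r - s) ≤ q ^ k := pow_le_pow_of_le_one hq0.le hq1.le (by omega)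
    have h2 : lam * q ^ (r - s) * c ≤ L / 8 := by
      have e1 : lam * q ^ (r - s) ≤ r * L * q ^ k :=
        mul_le_mul hlam h1 (pow_nonneg hq0.le _) (by positivity)
      have e2 : lam * q ^ (r - s) * c ≤ r * L * q ^ k * 2 :=
        mul_le_mul e1 hc2 hc.le (by positivity)
      have e3 : (r : ℝ) * L * q ^ k * 2 = (r * q ^ k) * L * 2 := by ring
      rw [e3] at e2
      nlinarith
    have h3 : (1 - δ) * L ≤ s * ((1 - δ) * L) := by
      have : 0 ≤ (1 - δ) * L := by
        apply mul_nonneg _ hL.le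
        rw [hδ]
        linarith
      nlinarith
    have h4 : (7 / 8) * L ≤ (1 - δ) * L := by
      apply mul_le_mul_of_nonneg_right _ hL.le
      rw [hδ]
      linarith
    linarith

lemma ev_conditions {q : ℝ} (hq0 : 0 < q) (hq1 : q < 1) (K : ℕ) (hK : K ≠ 0) :
    ∀ᶠ r : ℕ in atTop, 5 ≤ r ∧ (r : ℝ) * q ^ r ≤ 1 / 4 ∧ 8 * ((r : ℝ) ^ 2 * q ^ r) ≤ 1 ∧
      (1 - q ^ r) ^ 2 * (1 + (1 - q) / 8) ≥ 1 ∧ q ^ r ≤ 1 / 4 ∧
      Real.log (2 * (r : ℝ) ^ 2) ≤ (1 - q) / 8 * (r * (-Real.log q) - Real.log 2) ∧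
      (r : ℝ) * q ^ (r / K) ≤ 1 / 16 ∧ 1 ≤ (r : ℝ) * (1 - q) ∧
      0 < r * (-Real.log q) - Real.log 2 := by
  have hg : 0 < 1 - q := by linarith
  have hl : 0 < -Real.log q := by
    have := Real.log_neg hq0 hq1
    linarith
  have h1 : Tendsto (fun r : ℕ => (r : ℝ) ^ 1 * q ^ r) atTop (𝓝 0) :=
    tendsto_pow_const_mul_const_pow_of_lt_one 1 hq0.le hq1
  have h2 : Tendsto (fun r : ℕ => (r : ℝ) ^ 2 * q ^ r) atTop (𝓝 0) :=
    tendsto_pow_const_mul_const_pow_of_lt_one 2 hq0.le hq1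
  have h0 : Tendsto (fun r : ℕ => q ^ r) atTop (𝓝 0) := tendsto_pow_atTop_nhds_zero_of_lt_one hq0.le hq1
  have hc : Tendsto (fun r : ℕ => (1 - q ^ r) ^ 2 * (1 + (1 - q) / 8)) atTop
      (𝓝 ((1 - 0) ^ 2 * (1 + (1 - q) / 8))) :=
    ((tendsto_const_nhds.sub h0).pow 2).mul_const _
  have hnat : Tendsto (fun r : ℕ => (r : ℝ)) atTop atTop := tendsto_natCast_atTop_atTop
  have e1 : ∀ᶠ r : ℕ in atTop, 5 ≤ r := eventually_ge_atTop 5
  have e2 : ∀ᶠ r : ℕ in atTop, (r : ℝ) * q ^ r ≤ 1 / 4 := by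
    filter_upwards [h1.eventually_lt_const (show (0 : ℝ) < 1 / 4 by norm_num)] with r hr
    rw [pow_one] at hr
    exact hr.le
  have e3 : ∀ᶠ r : ℕ in atTop, 8 * ((r : ℝ) ^ 2 * q ^ r) ≤ 1 := by
    filter_upwards [h2.eventually_lt_const (show (0 : ℝ) < 1 / 8 by norm_num)] with r hr
    linarith
  have e4 : ∀ᶠ r : ℕ in atTop, (1 - q ^ r) ^ 2 * (1 + (1 - q) / 8) ≥ 1 := by
    filter_upwards [hc.eventually_const_lt (show (1 : ℝ) < (1 - 0) ^ 2 * (1 + (1 - q) / 8) by
      nlinarith)] with r hr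
    exact hr.le
  have e5 : ∀ᶠ r : ℕ in atTop, q ^ r ≤ 1 / 4 := by
    filter_upwards [h0.eventually_lt_const (show (0 : ℝ) < 1 / 4 by norm_num)] with r hr
    exact hr.le
  have e6 : ∀ᶠ r : ℕ in atTop,
      Real.log (2 * (r : ℝ) ^ 2) ≤ (1 - q) / 8 * (r * (-Real.log q) - Real.log 2) := by
    set δ := (1 - q) / 8 with hδ
    have hδ0 : 0 < δ := by positivity
    have a1 := (Real.isLittleO_log_id_atTop.comp_tendsto hnat).def
      (show (0 : ℝ) < δ * (-Real.log q) / 4 by positivity)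
    have a2 : Tendsto (fun r : ℕ => (r : ℝ) * (δ * (-Real.log q) / 2)) atTop atTop :=
      hnat.atTop_mul_const (by positivity)
    filter_upwards [a1, a2.eventually_ge_atTop (Real.log 2 + δ * Real.log 2),
      eventually_ge_atTop 1] with r b1 b2 b3
    have hr : (0 : ℝ) < r := by exact_mod_cast b3
    simp only [Function.comp, id, Real.norm_eq_abs] at b1
    rw [abs_of_pos hr] at b1
    have b4 := (le_abs_self _).trans b1
    rw [Real.log_mul (by norm_num) (by positivity), Real.log_pow]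
    push_cast
    nlinarith
  have e7 : ∀ᶠ r : ℕ in atTop, (r : ℝ) * q ^ (r / K) ≤ 1 / 16 := by
    have a1 : Tendsto (fun k : ℕ => (K : ℝ) * ((k : ℝ) ^ 1 * q ^ k + q ^ k)) atTop
        (𝓝 ((K : ℝ) * (0 + 0))) :=
      ((tendsto_pow_const_mul_const_pow_of_lt_one 1 hq0.le hq1).add h0).const_mul _
    have a2 : Tendsto (fun r : ℕ => r / K) atTop atTop := Nat.tendsto_div_const_atTop hK
    have a3 := (a1.comp a2).eventually_lt_const (show (K : ℝ) * (0 + 0) < 1 / 16 by norm_num)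
    filter_upwards [a3] with r hr
    simp only [Function.comp, pow_one] at hr
    have h3 : (r : ℝ) ≤ K * ((r / K : ℕ) + 1) := by
      have : r < K * (r / K + 1) := by
        have := Nat.lt_mul_div_succ r (Nat.pos_of_ne_zero hK)
        exact this
      exact_mod_cast this.le
    have h4 : 0 < q ^ (r / K) := pow_pos hq0 _
    calc (r : ℝ) * q ^ (r / K) ≤ K * ((r / K : ℕ) + 1) * q ^ (r / K) :=
          mul_le_mul_of_nonneg_right h3 h4.le
      _ = K * (((r / K : ℕ) : ℝ) * q ^ (r / K) + q ^ (r / K)) := by ring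
      _ ≤ 1 / 16 := hr.le
  have e8 : ∀ᶠ r : ℕ in atTop, 1 ≤ (r : ℝ) * (1 - q) :=
    (hnat.atTop_mul_const hg).eventually_ge_atTop 1
  have e9 : ∀ᶠ r : ℕ in atTop, 0 < r * (-Real.log q) - Real.log 2 := by
    filter_upwards [(hnat.atTop_mul_const hl).eventually_gt_atTop (Real.log 2)] with r hr
    linarith
  filter_upwards [e1, e2, e3, e4, e5, e6, e7, e8, e9] with r f1 f2 f3 f4 f5 f6 f7 f8 f9
  exact ⟨f1, f2, f3, f4, f5, f6, f7, f8, f9⟩

theorem core {q : ℝ} (hq0 : 0 < q) (hq1 : q < 1) : ∀ᶠ r : ℕ in atTop, ∀ n : ℕ,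
    1 ≤ 2 * (q ^ r * n) → 1 / 24 ≤ (n.choose r : ℝ) * (1 - q ^ r) ^ (n - r) →
      ∑ s ∈ range r, term n r q s ≤ 4 * (n.choose r * (1 - q ^ r) ^ (2 * (n - r))) := by
  set g := 1 - q with hg
  have hg0 : 0 < g := by linarith
  obtain ⟨K, hK⟩ := exists_nat_gt (8 / g)
  have hK0 : 0 < (K : ℝ) := lt_trans (by positivity) hK
  have hK' : K ≠ 0 := by
    rintro rfl
    simp at hK0
  filter_upwards [ev_conditions hq0 hq1 K hK'] with r hr n hn1 hn2
  obtain ⟨f1, f2, f3, f4, f5, f6, f7, f8, f9⟩ := hr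
  set x := q ^ r with hx
  have hx0 : 0 < x := pow_pos hq0 r
  have hr0 : (0 : ℝ) < r := by exact_mod_cast (by omega : 0 < r)
  have hr5 : (5 : ℝ) ≤ r := by exact_mod_cast f1
  have hn4 : 4 * (r : ℝ) ^ 2 ≤ n := by
    have : 8 * ((r : ℝ) ^ 2 * x) ≤ 2 * (x * n) := f3.trans hn1
    nlinarith
  have hnr : 2 * r < n := by
    have : (2 * (r : ℝ)) < n := by nlinarith
    exact_mod_cast this
  have hn0 : (0 : ℝ) < n := by nlinarith
  have hL : r * (-Real.log q) - Real.log 2 ≤ Real.log n := by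
    have h1 : 1 / (2 * x) ≤ (n : ℝ) := by
      rw [div_le_iff₀ (by positivity)]
      linarith
    have h2 := Real.log_le_log (by positivity) h1
    rw [Real.log_div one_ne_zero (by positivity), Real.log_one, Real.log_mul (by norm_num) hx0.ne',
      hx, Real.log_pow] at h2
    linarith
  have hL0 : 0 < Real.log n := lt_of_lt_of_le f9 hL
  have hlam := lam_le f1 (by omega) hx0 (by linarith) f2 hn2
  have hnr' : (0 : ℝ) < (n : ℝ) - r := by
    have : (r : ℝ) < n := by exact_mod_cast (by omega : r < n)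
    linarith
  set M := Real.log (((n : ℝ) - r) / (r : ℝ) ^ 2) with hMdef
  have hM : (1 - g / 8) * Real.log n ≤ M := by
    have h1 : (n : ℝ) / (2 * (r : ℝ) ^ 2) ≤ ((n : ℝ) - r) / (r : ℝ) ^ 2 := by
      rw [div_le_div_iff₀ (by positivity) (by positivity)]
      have : (2 * (r : ℝ)) ≤ n := by exact_mod_cast hnr.le
      nlinarith [sq_nonneg (r : ℝ)]
    have h2 := Real.log_le_log (by positivity) h1
    rw [Real.log_div hn0.ne' (by positivity)] at h2
    have h3 : g / 8 * (r * (-Real.log q) - Real.log 2) ≤ g / 8 * Real.log n :=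
      mul_le_mul_of_nonneg_left hL (by positivity)
    have h4 : (1 - g / 8) * Real.log n = Real.log n - g / 8 * Real.log n := by ring
    rw [h4]
    linarith
  have h1x : 0 < 1 - x := by linarith
  have hc : 1 / (1 - x) ^ 2 ≤ 1 + g / 8 := by
    rw [div_le_iff₀ (by positivity)]
    linarith
  have hk : ((r / K : ℕ) : ℝ) ≤ g / 8 * r := by
    have h1 : ((r / K : ℕ) : ℝ) ≤ (r : ℝ) / K := Nat.cast_div_le
    refine h1.trans ?_
    rw [div_le_iff₀ hK0]
    have h2 : 8 < K * g := by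
      rw [div_lt_iff₀ hg0] at hK
      exact hK
    nlinarith
  have hE : ∀ s, 1 ≤ s → s < r → ((r : ℝ) ^ 2 / (n - r)) ^ s *
        Real.exp (n * x * q ^ (r - s) / (1 - x) ^ 2) ≤ Real.exp (-(Real.log n / 2)) := by
    intro s hs1 hsr
    have h1 : ((r : ℝ) ^ 2 / (n - r)) ^ s = Real.exp (-(s * M)) := by
      have h2 : ((r : ℝ) ^ 2 / (n - r)) = Real.exp (-M) := by
        rw [hMdef, Real.exp_neg, Real.exp_log (by positivity), inv_div]
      rw [h2, ← Real.exp_nat_mul]
      congr 1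
      ring
    rw [h1, ← Real.exp_add]
    refine Real.exp_le_exp.2 ?_
    have h3 := expo (c := 1 / (1 - x) ^ 2) (lam := n * x) (δ := g / 8) (g := g) hL0 hM hlam
      (by positivity) (by positivity) (hc.trans (by linarith)) hc hq0 hq1 hg rfl hs1 hsr hk f7
      f8
    have h4 : (n : ℝ) * x * q ^ (r - s) / (1 - x) ^ 2 = n * x * q ^ (r - s) * (1 / (1 - x) ^ 2) := by
      ring
    rw [h4]
    exact h3
  have hsq : (r : ℝ) * Real.exp (-(Real.log n / 2)) ≤ 1 := by
    have h1 : (r : ℝ) ≤ Real.exp (Real.log n / 2) := by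
      have h2 : (r : ℝ) ^ 2 ≤ Real.exp (Real.log n / 2) ^ 2 := by
        rw [← Real.exp_nat_mul]
        have : ((2 : ℕ) : ℝ) * (Real.log n / 2) = Real.log n := by push_cast; ring
        rw [this, Real.exp_log hn0]
        nlinarith
      exact le_of_sq_le_sq h2 (Real.exp_pos _).le
    calc (r : ℝ) * Real.exp (-(Real.log n / 2))
        ≤ Real.exp (Real.log n / 2) * Real.exp (-(Real.log n / 2)) :=
          mul_le_mul_of_nonneg_right h1 (Real.exp_pos _).le
      _ = 1 := by rw [← Real.exp_add]; simp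
  set C := (n.choose r : ℝ) * (1 - x) ^ (2 * (n - r)) with hC
  have hC0 : 0 ≤ C := by positivity
  have hx2 : x ≤ 1 / 2 := by linarith
  have hterm : ∀ s ∈ range r, term n r q s ≤
      (if s = 0 then C * 2 else 0) + C * 2 * Real.exp (-(Real.log n / 2)) := by
    intro s hs
    rw [mem_range] at hs
    have hexp := (Real.exp_pos (-(Real.log n / 2))).le
    rcases Nat.eq_zero_or_pos s with h0 | h0
    · subst h0
      rw [if_pos rfl]
      have := term_zero hq0 hq1 hnr f2 hx2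
      have h2 : 0 ≤ C * 2 * Real.exp (-(Real.log n / 2)) := by positivity
      linarith
    · rw [if_neg (by omega), zero_add]
      refine (term_le hq0 hq1 hs.le hnr f2 hx2).trans ?_
      exact mul_le_mul_of_nonneg_left (hE s h0 hs) (by positivity)
  refine (Finset.sum_le_sum hterm).trans ?_
  rw [Finset.sum_add_distrib, Finset.sum_const, Finset.card_range, nsmul_eq_mul,
    Finset.sum_ite_eq' (range r) 0, if_pos (mem_range.2 (by omega))]
  have : (r : ℝ) * (C * 2 * Real.exp (-(Real.log n / 2))) =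
      (r * Real.exp (-(Real.log n / 2))) * (C * 2) := by ring
  rw [this]
  nlinarith

end Pool.Agent.V11328.DG
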