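import Pool.Agent.V11328.DG.Core

/-! For large `r` there is `n` such that the expected number of dominating sets of size `r` lies
between `1/24` and `1/12`; hence `P(X_r = 1) ≥ 1/36`. -/

open MeasureTheory Filter Topology Finset unitInterval
open scoped SimpleGraph

namespace Pool.Agent.V11328.DG

lemma tendsto_mu {x : ℝ} (hx0 : 0 < x) (hx1 : x < 1) (r : ℕ) :
    Tendsto (fun n : ℕ => (n.choose r : ℝ) * (1 - x) ^ (n - r)) atTop (𝓝 0) := by
  have h1x : 0 < 1 - x := by linarith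
  have h := (tendsto_pow_const_mul_const_pow_of_lt_one r h1x.le (by linarith)).mul_const
    (1 / (1 - x) ^ r)
  rw [zero_mul] at h
  refine squeeze_zero' (Eventually.of_forall fun n => by positivity) ?_ h
  filter_upwards [eventually_ge_atTop r] with n hn
  have h1 : (n.choose r : ℝ) ≤ (n : ℝ) ^ r := by exact_mod_cast Nat.choose_le_pow n r
  have h2 : (1 - x) ^ (n - r) = (1 - x) ^ n * (1 / (1 - x) ^ r) := by
    rw [mul_one_div, eq_div_iff (by positivity), ← pow_add, Nat.sub_add_cancel hn]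
  rw [h2, mul_assoc]
  exact mul_le_mul_of_nonneg_right h1 (by positivity)

lemma exists_n {q : ℝ} (hq0 : 0 < q) (hq1 : q < 1) : ∀ᶠ r : ℕ in atTop, ∃ n : ℕ,
    1 ≤ 2 * (q ^ r * n) ∧ 1 / 24 ≤ (n.choose r : ℝ) * (1 - q ^ r) ^ (n - r) ∧
      (n.choose r : ℝ) * (1 - q ^ r) ^ (n - r) ≤ 1 / 12 := by
  filter_upwards [ev_conditions hq0 hq1 1 one_ne_zero] with r hr
  obtain ⟨f1, f2, f3, -, f5, -, -, -, -⟩ := hr
  set x := q ^ r with hx
  have hx0 : 0 < x := pow_pos hq0 r
  have h1x : 0 < 1 - x := by linarith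
  have hr0 : (0 : ℝ) < r := by exact_mod_cast (by omega : 0 < r)
  have hr5 : (5 : ℝ) ≤ r := by exact_mod_cast f1
  set N := ⌈1 / (2 * x)⌉₊ with hN
  have hN1 : 1 / (2 * x) ≤ (N : ℝ) := Nat.le_ceil _
  have hN2 : (N : ℝ) < 1 / (2 * x) + 1 := Nat.ceil_lt_add_one (by positivity)
  have hN3 : 1 ≤ 2 * (x * N) := by
    rw [div_le_iff₀ (by positivity)] at hN1
    linarith
  have hN4 : (N : ℝ) * x ≤ 3 / 4 := by
    have : (N : ℝ) * x ≤ (1 / (2 * x) + 1) * x := mul_le_mul_of_nonneg_right hN2.le hx0.le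
    have h2 : (1 / (2 * x) + 1) * x = 1 / 2 + x := by field_simp
    linarith
  have hNr : r ≤ N := by
    have : 8 * ((r : ℝ) ^ 2 * x) ≤ 2 * (x * N) := f3.trans hN3
    have h2 : (r : ℝ) ≤ N := by nlinarith
    exact_mod_cast h2
  have hfN : 1 / 24 ≤ (N.choose r : ℝ) * (1 - x) ^ (N - r) := by
    have h1 : (1 : ℝ) ≤ N.choose r := by exact_mod_cast Nat.choose_pos hNr
    have h2 : (1 - x) ^ N ≤ (1 - x) ^ (N - r) :=
      pow_le_pow_of_le_one h1x.le (by linarith) (Nat.sub_le _ _)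
    have h3 := one_add_mul_le_pow (a := -x) (by linarith) N
    have h4 : (1 : ℝ) + -x = 1 - x := by ring
    rw [h4] at h3
    have h5 : (1 / 4 : ℝ) ≤ (1 - x) ^ (N - r) := by linarith
    nlinarith
  have hex : ∃ m, N < m ∧ (m.choose r : ℝ) * (1 - x) ^ (m - r) < 1 / 24 := by
    have := (tendsto_mu hx0 (by linarith) r).eventually_lt_const
      (show (0 : ℝ) < 1 / 24 by norm_num)
    obtain ⟨m, hm1, hm2⟩ := (this.and (eventually_gt_atTop N)).exists
    exact ⟨m, hm2, hm1⟩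
  classical
  obtain ⟨hm1, hm2⟩ := Nat.find_spec hex
  have hmin := fun k => Nat.find_min (H := hex) (m := k)
  set m := Nat.find hex with hm
  obtain ⟨n, hn⟩ : ∃ n, m = n + 1 := ⟨m - 1, by omega⟩
  have hnN : N ≤ n := by omega
  have hfn : 1 / 24 ≤ (n.choose r : ℝ) * (1 - x) ^ (n - r) := by
    rcases Nat.lt_or_ge N n with h | h
    · have := hmin n (by omega)
      push Not at this
      exact this h
    · have : n = N := by omega
      rw [this]
      exact hfN
  refine ⟨n, ?_, hfn, ?_⟩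
  · have : (N : ℝ) ≤ n := by exact_mod_cast hnN
    nlinarith
  · rw [hn] at hm2
    have h1 : (n.choose r : ℝ) ≤ ((n + 1).choose r : ℝ) := by
      exact_mod_cast Nat.choose_le_choose r (Nat.le_succ n)
    have h2 : (1 - x) ^ (n + 1 - r) = (1 - x) ^ (n - r) * (1 - x) := by
      rw [← pow_succ]
      congr 1
      omega
    rw [h2, ← mul_assoc] at hm2
    have h3 : (n.choose r : ℝ) * (1 - x) ^ (n - r) ≤
        ((n + 1).choose r : ℝ) * (1 - x) ^ (n - r) :=
      mul_le_mul_of_nonneg_right h1 (by positivity)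
    have h4 : (n.choose r : ℝ) * (1 - x) ^ (n - r) * (1 - x) < 1 / 24 :=
      lt_of_le_of_lt (mul_le_mul_of_nonneg_right h3 h1x.le) hm2
    nlinarith

/-- For every large `r` there is `n ≥ q^(-r) / 2` such that with probability at least `1/36` there is
exactly one dominating set of size `r` in `G(n,p)`. -/
theorem unique_dom (p : I) (hp0 : 0 < (p : ℝ)) (hp1 : (p : ℝ) < 1) :
    ∀ᶠ r : ℕ in atTop, ∃ n : ℕ, 1 ≤ 2 * ((1 - (p : ℝ)) ^ r * n) ∧
      1 / 36 ≤ (G(Fin n, p)).real {G | X r G = 1} := by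
  have hq0 : 0 < 1 - (p : ℝ) := by linarith
  have hq1 : 1 - (p : ℝ) < 1 := by linarith
  filter_upwards [core hq0 hq1, exists_n hq0 hq1] with r h1 h2
  obtain ⟨n, hn1, hn2, hn3⟩ := h2
  refine ⟨n, hn1, ?_⟩
  have h3 := h1 n hn1 hn2
  have h4 := prob_one (V := Fin n) p r
  rw [Fintype.card_fin] at h4
  refine le_trans ?_ h4
  set μ := (n.choose r : ℝ) * (1 - (1 - (p : ℝ)) ^ r) ^ (n - r) with hμ
  have h5 : (n.choose r : ℝ) * ∑ s ∈ range r, term n r (1 - (p : ℝ)) s ≤ 4 * μ ^ 2 := by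
    have h6 : (n.choose r : ℝ) * ∑ s ∈ range r, term n r (1 - (p : ℝ)) s ≤
        n.choose r * (4 * (n.choose r * (1 - (1 - (p : ℝ)) ^ r) ^ (2 * (n - r)))) :=
      mul_le_mul_of_nonneg_left h3 (by positivity)
    refine h6.trans (le_of_eq ?_)
    rw [hμ]
    ring
  nlinarith

end Pool.Agent.V11328.DG
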