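import Pool.Agent.V11328.DG.Pairs

/-! For large `r` there is `n` such that the expected number of dominating sets of size `r` is about
`n^(3/2)`; then Dominator can claim a dominating set of size `r`, but not within `r` rounds. -/

open MeasureTheory Filter Topology Finset unitInterval
open scoped SimpleGraph

namespace Pool.Agent.V11328.DG

lemma choose_mono_half {n : ℕ} : ∀ r : ℕ, 2 ≤ r → r ≤ n / 2 → n.choose 2 ≤ n.choose r := by
  intro r hr
  induction r, hr using Nat.le_induction with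
  | base => intro _; exact le_rfl
  | succ r hr ih =>
    intro h
    exact (ih (by omega)).trans (Nat.choose_le_succ_of_lt_half_left (by omega))

lemma exists_n2 {q : ℝ} (hq0 : 0 < q) (hq1 : q < 1) : ∀ᶠ r : ℕ in atTop, ∃ n : ℕ,
    1 ≤ 2 * (q ^ r * n) ∧ (n : ℝ) ^ 3 ≤ ((n.choose r : ℝ) * (1 - q ^ r) ^ (n - r)) ^ 2 ∧
      ((n.choose r : ℝ) * (1 - q ^ r) ^ (n - r)) ^ 2 ≤ 4 * (n : ℝ) ^ 3 := by
  filter_upwards [ev_conditions hq0 hq1 1 one_ne_zero] with r hr
  obtain ⟨f1, f2, f3, -, f5, -, -, -, -⟩ := hr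
  set x := q ^ r with hx
  have hx0 : 0 < x := pow_pos hq0 r
  have h1x : 0 < 1 - x := by linarith
  have hr0 : (0 : ℝ) < r := by exact_mod_cast (by omega : 0 < r)
  have hr5 : (5 : ℝ) ≤ r := by exact_mod_cast f1
  set N := ⌈1 / (2 * x)⌉₊ with hN
  have hN1 : 1 / (2 * x) ≤ (N : ℝ) := Nat.le_ceil _
  have hN2 : (N : ℝ) < 1 / (2 * x) + 1 := Nat.ceil_lt_add_one (by positivity)
  have hN3 : 1 ≤ 2 * (x * N) := by
    rw [div_le_iff₀ (by positivity)] at hN1
    linarith
  have hN4 : (N : ℝ) * x ≤ 3 / 4 := by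
    have : (N : ℝ) * x ≤ (1 / (2 * x) + 1) * x := mul_le_mul_of_nonneg_right hN2.le hx0.le
    have h2 : (1 / (2 * x) + 1) * x = 1 / 2 + x := by field_simp
    linarith
  have hNr2 : 4 * (r : ℝ) ^ 2 ≤ N := by
    have : 8 * ((r : ℝ) ^ 2 * x) ≤ 2 * (x * N) := f3.trans hN3
    nlinarith
  have hNr : 2 * r ≤ N := by
    have h2 : (2 * (r : ℝ)) ≤ N := by nlinarith
    exact_mod_cast h2
  have hN100 : (100 : ℝ) ≤ N := by nlinarith
  have hfN : (N : ℝ) ^ 3 ≤ ((N.choose r : ℝ) * (1 - x) ^ (N - r)) ^ 2 := by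
    have h1 : ((N.choose 2 : ℕ) : ℝ) ≤ N.choose r := by
      exact_mod_cast choose_mono_half r (by omega) (by omega)
    rw [Nat.cast_choose_two] at h1
    have h2 : (1 - x) ^ N ≤ (1 - x) ^ (N - r) :=
      pow_le_pow_of_le_one h1x.le (by linarith) (Nat.sub_le _ _)
    have h3 := one_add_mul_le_pow (a := -x) (by linarith) N
    have h4 : (1 : ℝ) + -x = 1 - x := by ring
    rw [h4] at h3
    have h5 : (1 / 4 : ℝ) ≤ (1 - x) ^ (N - r) := by linarith
    have h6 : (N : ℝ) * (N - 1) / 2 * (1 / 4) ≤ (N.choose r : ℝ) * (1 - x) ^ (N - r) :=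
      mul_le_mul h1 h5 (by norm_num) (by positivity)
    have h7 : (0 : ℝ) ≤ (N : ℝ) * (N - 1) / 2 * (1 / 4) := by
      have : (0 : ℝ) ≤ (N : ℝ) - 1 := by linarith
      positivity
    have h8 : (N : ℝ) ^ 3 ≤ ((N : ℝ) * (N - 1) / 2 * (1 / 4)) ^ 2 := by
      have e1 : ((N : ℝ) * (N - 1) / 2 * (1 / 4)) ^ 2 = (N : ℝ) ^ 2 * ((N - 1) ^ 2 / 64) := by ring
      have e2 : (N : ℝ) ^ 3 = (N : ℝ) ^ 2 * N := by ring
      rw [e1, e2]
      refine mul_le_mul_of_nonneg_left ?_ (by positivity)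
      nlinarith
    exact h8.trans (pow_le_pow_left₀ h7 h6 2)
  have hex : ∃ m, N < m ∧ ((m.choose r : ℝ) * (1 - x) ^ (m - r)) ^ 2 < (m : ℝ) ^ 3 := by
    have := (tendsto_mu hx0 (by linarith) r).eventually_lt_const
      (show (0 : ℝ) < 1 by norm_num)
    obtain ⟨m, hm1, hm2⟩ := (this.and (eventually_gt_atTop N)).exists
    refine ⟨m, hm2, ?_⟩
    have h1 : (0 : ℝ) ≤ (m.choose r : ℝ) * (1 - x) ^ (m - r) := by positivity
    have h2 : (1 : ℝ) ≤ m := by
      have : (N : ℝ) < m := by exact_mod_cast hm2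
      linarith
    have h3 : (1 : ℝ) ≤ (m : ℝ) ^ 3 := one_le_pow₀ h2
    nlinarith
  classical
  obtain ⟨hm1, hm2⟩ := Nat.find_spec hex
  have hmin := fun k => Nat.find_min (H := hex) (m := k)
  set m := Nat.find hex with hm
  obtain ⟨n, hn⟩ : ∃ n, m = n + 1 := ⟨m - 1, by omega⟩
  have hnN : N ≤ n := by omega
  have hnN' : (N : ℝ) ≤ n := by exact_mod_cast hnN
  have hfn : (n : ℝ) ^ 3 ≤ ((n.choose r : ℝ) * (1 - x) ^ (n - r)) ^ 2 := by
    rcases Nat.lt_or_ge N n with h | h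
    · have := hmin n (by omega)
      push Not at this
      exact this h
    · have : n = N := by omega
      rw [this]
      exact hfN
  refine ⟨n, ?_, hfn, ?_⟩
  · nlinarith
  · rw [hn] at hm2
    have h1 : (n.choose r : ℝ) ≤ ((n + 1).choose r : ℝ) := by
      exact_mod_cast Nat.choose_le_choose r (Nat.le_succ n)
    have h2 : (1 - x) ^ (n + 1 - r) = (1 - x) ^ (n - r) * (1 - x) := by
      rw [← pow_succ]
      congr 1
      omega
    rw [h2, ← mul_assoc] at hm2
    have h3 : (n.choose r : ℝ) * (1 - x) ^ (n - r) ≤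
        ((n + 1).choose r : ℝ) * (1 - x) ^ (n - r) :=
      mul_le_mul_of_nonneg_right h1 (by positivity)
    set f := (n.choose r : ℝ) * (1 - x) ^ (n - r) with hf
    have hf0 : 0 ≤ f := by positivity
    have h4 : (f * (1 - x)) ^ 2 < ((n + 1 : ℕ) : ℝ) ^ 3 :=
      lt_of_le_of_lt (pow_le_pow_left₀ (by positivity)
        (mul_le_mul_of_nonneg_right h3 h1x.le) 2) hm2
    have h5 : (3 / 4 * f) ^ 2 ≤ (f * (1 - x)) ^ 2 := by
      refine pow_le_pow_left₀ (by positivity) ?_ 2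
      nlinarith
    have h6 : ((n + 1 : ℕ) : ℝ) ^ 3 ≤ 2 * (n : ℝ) ^ 3 := by
      push_cast
      have h7 : (100 : ℝ) ≤ n := by linarith
      nlinarith [mul_nonneg (show (0 : ℝ) ≤ (n : ℝ) - 100 by linarith)
        (sq_nonneg (n : ℝ)), mul_nonneg (show (0 : ℝ) ≤ (n : ℝ) - 100 by linarith)
        (show (0 : ℝ) ≤ (n : ℝ) by linarith)]
    nlinarith

/-- the exponents, refined -/
lemma expo2 {L M lam c g q δ : ℝ} {r s k : ℕ} (hL : 0 < L) (hM : (1 - δ) * L ≤ M)
    (hlam : lam ≤ r * L) (hc : 0 < c) (hc2 : c ≤ 2) (hcg : c ≤ 1 + g / 8)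
    (hq0 : 0 < q) (hq1 : q < 1) (hg : g = 1 - q) (hδ : δ = g / 8) (hsr : s < r)
    (hk : (k : ℝ) ≤ g / 8 * r) (he : (r : ℝ) * q ^ k ≤ 1 / 16) (hf : 8 ≤ (r : ℝ) * g) :
    (r - s ≤ k → -(s * M) + lam * q ^ (r - s) * c ≤ -(4 * L)) ∧
    (2 ≤ s → -(s * M) + lam * q ^ (r - s) * c ≤ -(13 / 8 * L)) := by
  have hg0 : 0 < g := by linarith
  have hg1 : g < 1 := by linarith
  have hs0 : (0 : ℝ) ≤ s := by positivity
  have hr0 : (0 : ℝ) < r := by exact_mod_cast (by omega : 0 < r)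
  have hM' : -((s : ℝ) * M) ≤ -(s * ((1 - δ) * L)) := by nlinarith
  have ha : r - s ≤ k → -(s * M) + lam * q ^ (r - s) * c ≤ -(4 * L) := by
    intro hcase
    have h1 : q ^ (r - s) ≤ q := by
      calc q ^ (r - s) ≤ q ^ 1 := pow_le_pow_of_le_one hq0.le hq1.le (by omega)
        _ = q := pow_one q
    have h2 : lam * q ^ (r - s) * c ≤ r * L * q * (1 + g / 8) := by
      have := mul_le_mul hlam h1 (pow_nonneg hq0.le _) (by positivity)
      exact mul_le_mul this hcg hc.le (by positivity)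
    have h3 : (1 - g / 8) * r ≤ s := by
      have : (r : ℝ) ≤ s + k := by exact_mod_cast (by omega : r ≤ s + k)
      nlinarith
    have h4 : (1 - g / 8) * r * (1 - δ) ≤ s * (1 - δ) :=
      mul_le_mul_of_nonneg_right h3 (by rw [hδ]; linarith)
    have h5 : q = 1 - g := by linarith
    have h6 : (4 : ℝ) ≤ (1 - g / 8) * r * (1 - δ) - r * q * (1 + g / 8) := by
      rw [hδ, h5]
      have : (1 - g / 8) * (r : ℝ) * (1 - g / 8) - r * (1 - g) * (1 + g / 8) =
          r * g * (5 / 8 + g / 64 + g / 8) := by ring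
      rw [this]
      nlinarith
    nlinarith
  refine ⟨ha, fun hs2 => ?_⟩
  have hs2' : (2 : ℝ) ≤ s := by exact_mod_cast hs2
  by_cases hcase : r - s ≤ k
  · have := ha hcase
    linarith
  · have h1 : q ^ (r - s) ≤ q ^ k := pow_le_pow_of_le_one hq0.le hq1.le (by omega)
    have h2 : lam * q ^ (r - s) * c ≤ L / 8 := by
      have e1 : lam * q ^ (r - s) ≤ r * L * q ^ k :=
        mul_le_mul hlam h1 (pow_nonneg hq0.le _) (by positivity)
      have e2 : lam * q ^ (r - s) * c ≤ r * L * q ^ k * 2 :=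
        mul_le_mul e1 hc2 hc.le (by positivity)
      have e3 : (r : ℝ) * L * q ^ k * 2 = (r * q ^ k) * L * 2 := by ring
      rw [e3] at e2
      nlinarith
    have h3 : 2 * ((1 - δ) * L) ≤ s * ((1 - δ) * L) := by
      have : 0 ≤ (1 - δ) * L := by
        apply mul_nonneg _ hL.le
        rw [hδ]
        linarith
      nlinarith
    have h4 : (7 / 8) * L ≤ (1 - δ) * L := by
      apply mul_le_mul_of_nonneg_right _ hL.le
      rw [hδ]
      linarith
    linarith

lemma ev_small {q : ℝ} (hq0 : 0 < q) (hq1 : q < 1) : ∀ᶠ r : ℕ in atTop,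
    (r : ℝ) * Real.exp (-((r * (-Real.log q) - Real.log 2) / 8)) ≤ 1 / 2304 := by
  have hl : 0 < -Real.log q := by
    have := Real.log_neg hq0 hq1
    linarith
  have h1 : Tendsto (fun r : ℕ => ((r : ℝ) ^ 1 * (Real.exp (-(-Real.log q / 8))) ^ r) *
      Real.exp (Real.log 2 / 8)) atTop (𝓝 (0 * Real.exp (Real.log 2 / 8))) :=
    (tendsto_pow_const_mul_const_pow_of_lt_one 1 (Real.exp_pos _).le
      (by rw [Real.exp_lt_one_iff]; linarith)).mul_const _
  rw [zero_mul] at h1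
  filter_upwards [h1.eventually_lt_const (show (0 : ℝ) < 1 / 2304 by norm_num)] with r hr
  refine le_trans (le_of_eq ?_) hr.le
  rw [pow_one, ← Real.exp_nat_mul, mul_assoc, ← Real.exp_add]
  congr 2
  ring

/-- The bounds for the numbers of bad pairs. -/
theorem core2 {q : ℝ} (hq0 : 0 < q) (hq1 : q < 1) : ∀ᶠ r : ℕ in atTop, ∀ n : ℕ,
    1 ≤ 2 * (q ^ r * n) → ∀ μ : ℝ, (n.choose r : ℝ) * (1 - q ^ r) ^ (n - r) = μ →
      (n : ℝ) ^ 3 ≤ μ ^ 2 → μ ^ 2 ≤ 4 * (n : ℝ) ^ 3 →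
      2 * r < n ∧ 1 ≤ μ ∧
      n.choose r * ∑ s ∈ range r, term n r q s ≤ 4 * μ ^ 2 ∧
      n.choose r * ∑ s ∈ Ico 2 r, term n r q s ≤ μ / 8 * (1 / 72) ∧
      n.choose r * ∑ s ∈ {r - 1}, term n r q s ≤ 1 / 72 := by
  set g := 1 - q with hg
  have hg0 : 0 < g := by linarith
  obtain ⟨K, hK⟩ := exists_nat_gt (8 / g)
  have hK0 : 0 < (K : ℝ) := lt_trans (by positivity) hK
  have hK' : K ≠ 0 := by
    rintro rfl
    simp at hK0
  have hnat : Tendsto (fun r : ℕ => (r : ℝ)) atTop atTop := tendsto_natCast_atTop_atTop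
  filter_upwards [ev_conditions hq0 hq1 K hK', core hq0 hq1, ev_small hq0 hq1,
    (hnat.atTop_mul_const hg0).eventually_ge_atTop 8, eventually_ge_atTop K]
    with r hr hcore hsmall hrg hrK n hn1 μ hμdef hn3 hn4
  obtain ⟨f1, f2, f3, f4, f5, f6, f7, f8, f9⟩ := hr
  set x := q ^ r with hx
  have hx0 : 0 < x := pow_pos hq0 r
  have h1x : 0 < 1 - x := by linarith
  have hr0 : (0 : ℝ) < r := by exact_mod_cast (by omega : 0 < r)
  have hr5 : (5 : ℝ) ≤ r := by exact_mod_cast f1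
  have hn4r : 4 * (r : ℝ) ^ 2 ≤ n := by
    have : 8 * ((r : ℝ) ^ 2 * x) ≤ 2 * (x * n) := f3.trans hn1
    nlinarith
  have hnr : 2 * r < n := by
    have : (2 * (r : ℝ)) < n := by nlinarith
    exact_mod_cast this
  have hn0 : (0 : ℝ) < n := by nlinarith
  have hn1' : (1 : ℝ) ≤ n := by nlinarith
  have hμ0 : 0 ≤ μ := by
    rw [← hμdef]
    positivity
  have hμ1 : 1 ≤ μ := by
    have h1 : (1 : ℝ) ≤ (n : ℝ) ^ 3 := one_le_pow₀ hn1'
    nlinarith
  have hL : r * (-Real.log q) - Real.log 2 ≤ Real.log n := by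
    have h1 : 1 / (2 * x) ≤ (n : ℝ) := by
      rw [div_le_iff₀ (by positivity)]
      linarith
    have h2 := Real.log_le_log (by positivity) h1
    rw [Real.log_div one_ne_zero (by positivity), Real.log_one, Real.log_mul (by norm_num) hx0.ne',
      hx, Real.log_pow] at h2
    linarith
  have hL0 : 0 < Real.log n := lt_of_lt_of_le f9 hL
  have hμ24 : 1 / 24 ≤ (n.choose r : ℝ) * (1 - x) ^ (n - r) := by
    rw [hμdef]
    linarith
  have hlam := lam_le f1 (by omega) hx0 (by linarith) f2 hμ24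
  have hnr' : (0 : ℝ) < (n : ℝ) - r := by
    have : (r : ℝ) < n := by exact_mod_cast (by omega : r < n)
    linarith
  set M := Real.log (((n : ℝ) - r) / (r : ℝ) ^ 2) with hMdef
  have hM : (1 - g / 8) * Real.log n ≤ M := by
    have h1 : (n : ℝ) / (2 * (r : ℝ) ^ 2) ≤ ((n : ℝ) - r) / (r : ℝ) ^ 2 := by
      rw [div_le_div_iff₀ (by positivity) (by positivity)]
      have : (2 * (r : ℝ)) ≤ n := by exact_mod_cast hnr.le
      nlinarith [sq_nonneg (r : ℝ)]
    have h2 := Real.log_le_log (by positivity) h1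
    rw [Real.log_div hn0.ne' (by positivity)] at h2
    have h3 : g / 8 * (r * (-Real.log q) - Real.log 2) ≤ g / 8 * Real.log n :=
      mul_le_mul_of_nonneg_left hL (by positivity)
    have h4 : (1 - g / 8) * Real.log n = Real.log n - g / 8 * Real.log n := by ring
    rw [h4]
    linarith
  have hc : 1 / (1 - x) ^ 2 ≤ 1 + g / 8 := by
    rw [div_le_iff₀ (by positivity)]
    linarith
  have hk : ((r / K : ℕ) : ℝ) ≤ g / 8 * r := by
    have h1 : ((r / K : ℕ) : ℝ) ≤ (r : ℝ) / K := Nat.cast_div_le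
    refine h1.trans ?_
    rw [div_le_iff₀ hK0]
    have h2 : 8 < K * g := by
      rw [div_lt_iff₀ hg0] at hK
      exact hK
    nlinarith
  have hk1 : 1 ≤ r / K := (Nat.one_le_div_iff (Nat.pos_of_ne_zero hK')).2 hrK
  have hx2 : x ≤ 1 / 2 := by linarith
  -- bound for a term by an exponential
  have hterm : ∀ s, s < r → ∀ e : ℝ, -(s * M) + n * x * q ^ (r - s) * (1 / (1 - x) ^ 2) ≤ e →
      (n.choose r : ℝ) * term n r q s ≤ μ ^ 2 * 2 * Real.exp e := by
    intro s hsr e he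
    have h1 : ((r : ℝ) ^ 2 / (n - r)) ^ s = Real.exp (-(s * M)) := by
      have h2 : ((r : ℝ) ^ 2 / (n - r)) = Real.exp (-M) := by
        rw [hMdef, Real.exp_neg, Real.exp_log (by positivity), inv_div]
      rw [h2, ← Real.exp_nat_mul]
      congr 1
      ring
    have h3 := term_le hq0 hq1 hsr.le hnr f2 hx2
    rw [h1, ← Real.exp_add] at h3
    have h4 : (n : ℝ) * x * q ^ (r - s) / (1 - x) ^ 2 = n * x * q ^ (r - s) * (1 / (1 - x) ^ 2) := by
      ring
    rw [← hx, h4] at h3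
    calc (n.choose r : ℝ) * term n r q s
        ≤ n.choose r * (n.choose r * (1 - x) ^ (2 * (n - r)) * 2 *
          Real.exp (-(s * M) + n * x * q ^ (r - s) * (1 / (1 - x) ^ 2))) :=
          mul_le_mul_of_nonneg_left h3 (by positivity)
      _ = μ ^ 2 * 2 * Real.exp (-(s * M) + n * x * q ^ (r - s) * (1 / (1 - x) ^ 2)) := by
          rw [← hμdef]
          ring
      _ ≤ μ ^ 2 * 2 * Real.exp e :=
          mul_le_mul_of_nonneg_left (Real.exp_le_exp.2 he) (by positivity)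
  have hex := fun (s : ℕ) (hsr : s < r) =>
    expo2 (c := 1 / (1 - x) ^ 2) (lam := n * x) (δ := g / 8) (g := g) (s := s) hL0 hM hlam
      (by positivity) (hc.trans (by linarith)) hc hq0 hq1 hg rfl hsr hk f7 hrg
  have hexpn : (n : ℝ) = Real.exp (Real.log n) := (Real.exp_log hn0).symm
  have hsmall' : (r : ℝ) * Real.exp (-(Real.log n / 8)) ≤ 1 / 2304 := by
    refine le_trans (mul_le_mul_of_nonneg_left (Real.exp_le_exp.2 ?_) hr0.le) hsmall
    linarith
  have hμle : μ ≤ 2 * Real.exp (3 / 2 * Real.log n) := by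
    have h1 : μ ^ 2 ≤ (2 * Real.exp (3 / 2 * Real.log n)) ^ 2 := by
      have h2 : (2 * Real.exp (3 / 2 * Real.log n)) ^ 2 = 4 * (n : ℝ) ^ 3 := by
        have h3 : (n : ℝ) ^ 3 = Real.exp (Real.log n * 3) := by
          rw [Real.exp_mul, Real.exp_log hn0]
          norm_cast
        have h4 : Real.exp (3 / 2 * Real.log n) ^ 2 = Real.exp (Real.log n * 3) := by
          rw [← Real.exp_nat_mul]
          congr 1
          push_cast
          ring
        rw [h3, mul_pow, h4]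
        norm_num
      rw [h2]
      exact hn4
    exact le_of_sq_le_sq h1 (by positivity)
  refine ⟨hnr, hμ1, ?_, ?_, ?_⟩
  · have h1 := hcore n hn1 hμ24
    calc (n.choose r : ℝ) * ∑ s ∈ range r, term n r q s
        ≤ n.choose r * (4 * (n.choose r * (1 - x) ^ (2 * (n - r)))) :=
          mul_le_mul_of_nonneg_left h1 (by positivity)
      _ = 4 * μ ^ 2 := by rw [← hμdef]; ring
  · rw [Finset.mul_sum]
    have h1 : ∀ s ∈ Ico 2 r, (n.choose r : ℝ) * term n r q s ≤
        μ ^ 2 * 2 * Real.exp (-(13 / 8 * Real.log n)) := by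
      intro s hs
      rw [mem_Ico] at hs
      exact hterm s hs.2 _ ((hex s hs.2).2 hs.1)
    refine (Finset.sum_le_sum h1).trans ?_
    rw [Finset.sum_const, Nat.card_Ico, nsmul_eq_mul]
    have h2 : ((r - 2 : ℕ) : ℝ) ≤ r := by exact_mod_cast Nat.sub_le r 2
    have h3 : Real.exp (3 / 2 * Real.log n) * Real.exp (-(13 / 8 * Real.log n)) =
        Real.exp (-(Real.log n / 8)) := by
      rw [← Real.exp_add]
      congr 1
      ring
    calc ((r - 2 : ℕ) : ℝ) * (μ ^ 2 * 2 * Real.exp (-(13 / 8 * Real.log n)))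
        ≤ r * (μ ^ 2 * 2 * Real.exp (-(13 / 8 * Real.log n))) :=
          mul_le_mul_of_nonneg_right h2 (by positivity)
      _ = (μ * r * 2 * Real.exp (-(13 / 8 * Real.log n))) * μ := by ring
      _ ≤ (μ * r * 2 * Real.exp (-(13 / 8 * Real.log n))) *
          (2 * Real.exp (3 / 2 * Real.log n)) := mul_le_mul_of_nonneg_left hμle (by positivity)
      _ = 4 * μ * (r * (Real.exp (3 / 2 * Real.log n) * Real.exp (-(13 / 8 * Real.log n)))) := by
          ring
      _ = 4 * μ * (r * Real.exp (-(Real.log n / 8))) := by rw [h3]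
      _ ≤ 4 * μ * (1 / 2304) := mul_le_mul_of_nonneg_left hsmall' (by positivity)
      _ = μ / 8 * (1 / 72) := by ring
  · rw [Finset.sum_singleton]
    have h1 := hterm (r - 1) (by omega) _ ((hex (r - 1) (by omega)).1 (by omega))
    refine h1.trans ?_
    have h2 : Real.exp (-(4 * Real.log n)) * (n : ℝ) ^ 3 = Real.exp (-(Real.log n)) := by
      have h3 : (n : ℝ) ^ 3 = Real.exp (Real.log n * 3) := by
        rw [Real.exp_mul, Real.exp_log hn0]
        norm_cast
      rw [h3, ← Real.exp_add]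
      congr 1
      ring
    have h4 : Real.exp (-(Real.log n)) ≤ 1 / 2304 := by
      have h5 : Real.exp (-(Real.log n)) ≤ Real.exp (-(Real.log n / 8)) :=
        Real.exp_le_exp.2 (by linarith)
      have h6 : Real.exp (-(Real.log n / 8)) ≤ r * Real.exp (-(Real.log n / 8)) := by
        have := Real.exp_pos (-(Real.log n / 8))
        nlinarith
      linarith
    calc μ ^ 2 * 2 * Real.exp (-(4 * Real.log n))
        ≤ 4 * (n : ℝ) ^ 3 * 2 * Real.exp (-(4 * Real.log n)) := by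
          have := Real.exp_pos (-(4 * Real.log n))
          nlinarith
      _ = 8 * (Real.exp (-(4 * Real.log n)) * (n : ℝ) ^ 3) := by ring
      _ = 8 * Real.exp (-(Real.log n)) := by rw [h2]
      _ ≤ 8 * (1 / 2304) := by linarith
      _ ≤ 1 / 72 := by norm_num

/-- For `p ≥ 3/4` and every large `r` there is `n` such that with probability at least `1/36` Dominator
can claim a dominating set of size at most `r`, but cannot win within `r` rounds. -/
theorem time_ne_size (p : I) (hp0 : 3 / 4 ≤ (p : ℝ)) (hp1 : (p : ℝ) < 1) :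
    ∀ᶠ r : ℕ in atTop, ∃ n : ℕ, 2 * r < n ∧
      1 / 36 ≤ (G(Fin n, p)).real {G | sizeMB G 1 ≤ r ∧ (r : ℕ∞) < timeMB G 1} := by
  have hq0 : 0 < 1 - (p : ℝ) := by linarith
  have hq1 : 1 - (p : ℝ) < 1 := by linarith
  filter_upwards [exists_n2 hq0 hq1, core2 hq0 hq1, eventually_ge_atTop 2] with r h1 h2 hr2
  obtain ⟨n, hn1, hn3, hn4⟩ := h1
  obtain ⟨hnr, hμ1, e1, e2, e3⟩ := h2 n hn1 _ rfl hn3 hn4
  refine ⟨n, hnr, ?_⟩
  set μ := (n.choose r : ℝ) * (1 - (1 - (p : ℝ)) ^ r) ^ (n - r) with hμ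
  have h3 := prob_good (V := Fin n) p r hμ1 (by rw [Fintype.card_fin])
    (by rw [Fintype.card_fin]; exact e1) (by rw [Fintype.card_fin]; exact e2)
    (by rw [Fintype.card_fin]; exact e3)
  refine h3.trans (measureReal_mono (fun G hG => ?_))
  obtain ⟨g1, g2, g3⟩ := hG
  refine ⟨sizeMB_le (J := Ico 2 r) (fun s hs1 hs2 => mem_Ico.2 ⟨hs1, hs2⟩) ?_,
    lt_timeMB_of_YJ le_rfl hr2 (by rw [Fintype.card_fin]; omega) g3⟩
  rw [Fintype.card_fin]
  have hn0 : (0 : ℝ) < n := by exact_mod_cast (by omega : 0 < n)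
  have h4 : (3 / 8) * μ ≤ (X r G : ℝ) - YJ r (Ico 2 r) G := by linarith
  have h5 : (n : ℝ) / 8 < (3 / 8) * μ * (1 / 2) ^ r := by
    -- n 2^r < 3 μ
    have h6 : (4 : ℝ) ^ r ≤ 2 * n := by
      have h7 : (4 : ℝ) ^ r * (1 - (p : ℝ)) ^ r ≤ 1 := by
        rw [← mul_pow]
        exact pow_le_one₀ (by positivity) (by linarith)
      have h8 : (4 : ℝ) ^ r * 1 ≤ 4 ^ r * (2 * ((1 - (p : ℝ)) ^ r * n)) :=
        mul_le_mul_of_nonneg_left hn1 (by positivity)
      calc (4 : ℝ) ^ r = 4 ^ r * 1 := by ring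
        _ ≤ 4 ^ r * (2 * ((1 - (p : ℝ)) ^ r * n)) := h8
        _ = (4 ^ r * (1 - (p : ℝ)) ^ r) * (2 * n) := by ring
        _ ≤ 1 * (2 * n) := mul_le_mul_of_nonneg_right h7 (by positivity)
        _ = 2 * n := by ring
    have h9 : ((n : ℝ) * 2 ^ r) ^ 2 < (3 * μ) ^ 2 := by
      have h10 : ((n : ℝ) * 2 ^ r) ^ 2 = (n : ℝ) ^ 2 * 4 ^ r := by
        rw [mul_pow, ← pow_mul, mul_comm r 2, pow_mul]
        norm_num
      rw [h10]
      calc (n : ℝ) ^ 2 * 4 ^ r ≤ (n : ℝ) ^ 2 * (2 * n) :=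
            mul_le_mul_of_nonneg_left h6 (by positivity)
        _ < 9 * (n : ℝ) ^ 3 := by
            have : 0 < (n : ℝ) ^ 3 := by positivity
            nlinarith
        _ ≤ (3 * μ) ^ 2 := by nlinarith
    have h11 : (n : ℝ) * 2 ^ r < 3 * μ := lt_of_pow_lt_pow_left₀ 2 (by linarith) h9
    rw [one_div, inv_pow, ← div_eq_mul_inv, lt_div_iff₀ (by positivity)]
    linarith
  refine lt_of_lt_of_le h5 (mul_le_mul_of_nonneg_right h4 (by positivity))

end Pool.Agent.V11328.DG
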