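import Pool.Agent.V11328.DG.Exist

/-! The biased Maker-Breaker domination game: if there is exactly one dominating set of size `r = b t`,
`t ≥ 2`, then Dominator cannot win within `t` rounds. -/

open Finset

namespace Pool.Agent.V11328.DG

variable {V : Type*} [Fintype V] [DecidableEq V]

/-- The domination number: the least size of a dominating set. -/
noncomputable def domNumber {V : Type*} (G : SimpleGraph V) : ℕ :=
  sInf {k | ∃ A : Finset V, Dom G A ∧ #A = k}

/-- The set `D` contains a dominating set of `G`. -/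
def Contains {V : Type*} (G : SimpleGraph V) (D : Finset V) : Prop := ∃ A ⊆ D, Dom G A

/-- Dominator, who is to move and has claimed the vertices `D`, while Staller has claimed `S`, can
force a win within `t` further turns of hers; she claims at most `b` unclaimed vertices per turn,
and after each of her turns but the last one Staller claims at most one unclaimed vertex. -/
def Wins {V : Type*} [DecidableEq V] (G : SimpleGraph V) (b : ℕ) :
    ℕ → Finset V → Finset V → Prop
  | 0, D, _ => Contains G D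
  | t + 1, D, S => Contains G D ∨ ∃ Y : Finset V, #Y ≤ b ∧ Disjoint Y (D ∪ S) ∧
      (Contains G (D ∪ Y) ∨ ∀ Z : Finset V, #Z ≤ 1 → Disjoint Z (D ∪ Y ∪ S) →
        Wins G b t (D ∪ Y) (S ∪ Z))

/-- `γ_MB(G, b)`: the least number of rounds within which Dominator can force a win, Dominator
moving first; `⊤` if there is none. -/
noncomputable def gammaFirst {V : Type*} [DecidableEq V] (G : SimpleGraph V) (b : ℕ) : ℕ∞ :=
  sInf {t : ℕ∞ | ∃ k : ℕ, t = k ∧ Wins G b k ∅ ∅}

/-- `γ'_MB(G, b)`: the least number of rounds within which Dominator can force a win, Staller moving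
first (so that each round is a turn of Staller followed by a turn of Dominator). -/
noncomputable def gammaSecond {V : Type*} [DecidableEq V] (G : SimpleGraph V) (b : ℕ) : ℕ∞ :=
  sInf {t : ℕ∞ | ∃ k : ℕ, t = k ∧ ∀ Z : Finset V, #Z ≤ 1 → Wins G b k ∅ Z}

lemma Dom.mono {G : SimpleGraph V} {A B : Finset V} (h : Dom G A) (hAB : A ⊆ B) : Dom G B := by
  intro v hv
  obtain ⟨u, hu, hadj⟩ := h v (fun hv' => hv (hAB hv'))
  exact ⟨u, hAB hu, hadj⟩

lemma exists_unique_dom {G : SimpleGraph V} {r : ℕ} (hX : X r G = 1) (hr : r < Fintype.card V) :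
    ∃ D₀ : Finset V, #D₀ = r ∧ Dom G D₀ ∧ ∀ A, Dom G A → #A ≤ r → A = D₀ := by
  classical
  unfold X at hX
  obtain ⟨D₀, hD⟩ := Finset.card_eq_one.1 hX
  have h1 : ∀ A : Finset V, #A = r → Dom G A → A = D₀ := by
    intro A hA hdom
    have : A ∈ ({D₀} : Finset (Finset V)) := by
      rw [← hD, mem_filter, mem_powersetCard]
      exact ⟨⟨subset_univ _, hA⟩, hdom⟩
    exact mem_singleton.1 this
  have h2 : #D₀ = r ∧ Dom G D₀ := by
    have : D₀ ∈ ({D₀} : Finset (Finset V)) := mem_singleton_self _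
    rw [← hD, mem_filter, mem_powersetCard] at this
    exact ⟨this.1.2, this.2⟩
  refine ⟨D₀, h2.1, h2.2, fun A hA hle => ?_⟩
  rcases hle.lt_or_eq with hlt | heq
  · exfalso
    obtain ⟨B, hAB, -, hB⟩ := Finset.exists_subsuperset_card_eq (subset_univ A) hle
      (by rw [Finset.card_univ]; exact hr.le)
    have hB' : B = D₀ := h1 B hB (hA.mono hAB)
    subst hB'
    obtain ⟨y, hy⟩ : ∃ y, y ∉ B := by
      by_contra hcon
      push Not at hcon
      have : B = univ := Finset.eq_univ_of_forall hcon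
      rw [this, Finset.card_univ] at hB
      omega
    obtain ⟨z, hz, hz'⟩ : ∃ z ∈ B, z ∉ A := by
      by_contra hcon
      push Not at hcon
      have := Finset.card_le_card (show B ⊆ A from hcon)
      omega
    have h3 : insert y (B.erase z) = B := by
      refine h1 _ ?_ ?_
      · rw [Finset.card_insert_of_notMem (fun h => hy (mem_of_mem_erase h)),
          Finset.card_erase_of_mem hz, hB]
        omega
      · refine hA.mono fun a ha => ?_
        rw [mem_insert, mem_erase]
        exact Or.inr ⟨fun h => hz' (h ▸ ha), hAB ha⟩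
    exact hy (h3 ▸ mem_insert_self y _)
  · exact h1 A heq hA

lemma domNumber_eq {G : SimpleGraph V} {r : ℕ} {D₀ : Finset V} (h1 : #D₀ = r) (h2 : Dom G D₀)
    (h3 : ∀ A, Dom G A → #A ≤ r → A = D₀) : domNumber G = r := by
  unfold domNumber
  have hmem : r ∈ {k | ∃ A : Finset V, Dom G A ∧ #A = k} := ⟨D₀, h2, h1⟩
  apply le_antisymm (Nat.sInf_le hmem)
  obtain ⟨A, hA, hA'⟩ := Nat.sInf_mem (⟨r, hmem⟩ : Set.Nonempty {k | ∃ A : Finset V, Dom G A ∧ #A = k})
  have hle : #A ≤ r := by
    rw [hA']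
    exact Nat.sInf_le hmem
  have := h3 A hA hle
  rw [← hA', this, h1]

lemma not_wins {G : SimpleGraph V} {r b : ℕ} {D₀ : Finset V}
    (h3 : ∀ A, Dom G A → #A ≤ r → A = D₀) : ∀ (t : ℕ) (D S : Finset V), Disjoint D S →
      (D₀ ∩ S).Nonempty → #D + b * t ≤ r → ¬ Wins G b t D S := by
  have hcon : ∀ D S : Finset V, Disjoint D S → (D₀ ∩ S).Nonempty → #D ≤ r → ¬ Contains G D := by
    rintro D S hDS ⟨y, hy⟩ hD ⟨A, hAD, hA⟩
    have h4 := h3 A hA ((Finset.card_le_card hAD).trans hD)
    rw [mem_inter] at hy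
    rw [← h4] at hy
    exact Finset.disjoint_left.1 hDS (hAD hy.1) hy.2
  intro t
  induction t with
  | zero =>
    intro D S hDS hne hD hw
    exact hcon D S hDS hne (by omega) hw
  | succ t ih =>
    intro D S hDS hne hD hw
    rw [Wins] at hw
    rcases hw with hw | ⟨Y, hYb, hYd, hw⟩
    · exact hcon D S hDS hne (by omega) hw
    · have hd : Disjoint (D ∪ Y) S :=
        Finset.disjoint_union_left.2 ⟨hDS, (Finset.disjoint_union_right.1 hYd).2⟩
      have hc : #(D ∪ Y) ≤ #D + b := (Finset.card_union_le _ _).trans (by omega)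
      have hmul : b * (t + 1) = b * t + b := by ring
      rcases hw with hw | hw
      · exact hcon (D ∪ Y) S hd hne (by omega) hw
      · have := hw ∅ (by simp) (by simp)
        rw [Finset.union_empty] at this
        exact ih (D ∪ Y) S hd hne (by omega) this

lemma not_first {G : SimpleGraph V} {r b t : ℕ} {D₀ : Finset V} (hb : 1 ≤ b) (ht : 2 ≤ t)
    (hr : r = b * t) (h1 : #D₀ = r) (h3 : ∀ A, Dom G A → #A ≤ r → A = D₀) {k : ℕ} (hk : k ≤ t) :
    ¬ Wins G b k ∅ ∅ := by
  have hbr : b < r := by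
    rw [hr]
    nlinarith
  have hcon : ∀ Y : Finset V, #Y ≤ b → ¬ Contains G Y := by
    rintro Y hY ⟨A, hAY, hA⟩
    have h4 := Finset.card_le_card hAY
    have h5 := h3 A hA (by omega)
    rw [h5, h1] at h4
    omega
  intro hw
  rcases k with _ | k
  · exact hcon ∅ (by simp) hw
  · rw [Wins] at hw
    rcases hw with hw | ⟨Y, hYb, -, hw⟩
    · exact hcon ∅ (by simp) hw
    · rw [Finset.empty_union] at hw
      rcases hw with hw | hw
      · exact hcon Y hYb hw
      · obtain ⟨y, hy, hy'⟩ : ∃ y ∈ D₀, y ∉ Y := by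
          by_contra hc
          push Not at hc
          have := Finset.card_le_card (show D₀ ⊆ Y from hc)
          omega
        have h6 := hw {y} (by simp) (by simpa using hy')
        have hmul : b * (k + 1) ≤ b * t := Nat.mul_le_mul_left _ hk
        have hmul' : b * (k + 1) = b * k + b := by ring
        refine not_wins h3 k Y (∅ ∪ {y}) ?_ ?_ ?_ h6
        · simpa using hy'
        · exact ⟨y, by simp [hy]⟩
        · omega

lemma not_second {G : SimpleGraph V} {r b t : ℕ} {D₀ : Finset V} (hb : 1 ≤ b) (ht : 2 ≤ t)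
    (hr : r = b * t) (h1 : #D₀ = r) (h3 : ∀ A, Dom G A → #A ≤ r → A = D₀) {k : ℕ} (hk : k ≤ t) :
    ¬ ∀ Z : Finset V, #Z ≤ 1 → Wins G b k ∅ Z := by
  have hbr : b < r := by
    rw [hr]
    nlinarith
  obtain ⟨y, hy⟩ : D₀.Nonempty := Finset.card_pos.1 (by omega)
  intro h
  have h6 := h {y} (by simp)
  have hmul : b * k ≤ b * t := Nat.mul_le_mul_left _ hk
  refine not_wins h3 k ∅ {y} (by simp) ⟨y, by simp [hy]⟩ ?_ h6
  rw [Finset.card_empty]
  omega

/-- If there is exactly one dominating set of size `r = b t`, where `t ≥ 2`, then Dominator needs more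
than `t = ⌈γ(G)/b⌉` rounds in both versions of the game. -/
theorem game {G : SimpleGraph V} {r b t : ℕ} (hb : 1 ≤ b) (ht : 2 ≤ t) (hr : r = b * t)
    (hX : X r G = 1) (hn : r < Fintype.card V) :
    ((⌈(domNumber G : ℝ) / b⌉₊ : ℕ) : ℕ∞) < gammaFirst G b ∧
      ((⌈(domNumber G : ℝ) / b⌉₊ : ℕ) : ℕ∞) < gammaSecond G b := by
  obtain ⟨D₀, h1, h2, h3⟩ := exists_unique_dom hX hn
  have hd := domNumber_eq h1 h2 h3
  have hceil : ⌈(domNumber G : ℝ) / b⌉₊ = t := by
    rw [hd, hr]
    have hb' : (b : ℝ) ≠ 0 := by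
      have : (1 : ℝ) ≤ b := by exact_mod_cast hb
      positivity
    push_cast
    rw [mul_div_cancel_left₀ _ hb', Nat.ceil_natCast]
  rw [hceil]
  have key : ∀ S : Set ℕ∞, (∀ s ∈ S, ∃ k : ℕ, s = k ∧ t < k) → (t : ℕ∞) < sInf S := by
    intro S hS
    have h4 : ((t + 1 : ℕ) : ℕ∞) ≤ sInf S := by
      refine le_sInf fun s hs => ?_
      obtain ⟨k, rfl, hk⟩ := hS s hs
      exact_mod_cast hk
    refine lt_of_lt_of_le ?_ h4
    exact_mod_cast Nat.lt_succ_self t
  constructor
  · refine key _ ?_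
    rintro s ⟨k, rfl, hk⟩
    refine ⟨k, rfl, ?_⟩
    by_contra hcon
    exact not_first hb ht hr h1 h3 (not_lt.1 hcon) hk
  · refine key _ ?_
    rintro s ⟨k, rfl, hk⟩
    refine ⟨k, rfl, ?_⟩
    by_contra hcon
    exact not_second hb ht hr h1 h3 (not_lt.1 hcon) hk

end Pool.Agent.V11328.DG
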