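import Pool.Agent.V11328.DG.Game

/-! Beck's criterion for Maker's win in an almost disjoint hypergraph, in the game in which the first
player claims one vertex per move and the second player at most one. -/

open Finset

namespace Pool.Agent.V11328.DG

variable {V : Type*} [Fintype V] [DecidableEq V]

/-- The first player, who is to move and has claimed `D`, while the second player has claimed `S`, can
force within `t` further moves of hers that the set of her vertices satisfies `T` at some point. She
claims exactly one unclaimed vertex per move, the second player at most `b`. -/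
def Forces {V : Type*} [DecidableEq V] (T : Finset V → Prop) (b : ℕ) :
    ℕ → Finset V → Finset V → Prop
  | 0, D, _ => T D
  | t + 1, D, S => T D ∨ ∃ x, x ∉ D ∪ S ∧ (T (insert x D) ∨
      ∀ Z : Finset V, #Z ≤ b → Disjoint Z (insert x D ∪ S) → Forces T b t (insert x D) (S ∪ Z))

/-- The weight of one set. -/
noncomputable def wt {V : Type*} [DecidableEq V] (D S A : Finset V) : ℝ :=
  if Disjoint A S then (1 / 2 : ℝ) ^ #(A \ D) else 0

/-- The potential. -/
noncomputable def pot {V : Type*} [DecidableEq V] (F : Finset (Finset V)) (D S : Finset V) : ℝ :=
  ∑ A ∈ F, wt D S A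

/-- The weighted degree of a vertex. -/
noncomputable def dg {V : Type*} [DecidableEq V] (F : Finset (Finset V)) (D S : Finset V) (x : V) :
    ℝ :=
  ∑ A ∈ F, wt D S A * (if x ∈ A then 1 else 0)

omit [Fintype V] in
lemma wt_nonneg (D S A : Finset V) : 0 ≤ wt D S A := by
  unfold wt
  split_ifs <;> positivity

omit [Fintype V] in
lemma wt_insert {D : Finset V} (S A : Finset V) {x : V} (hx : x ∉ D) :
    wt (insert x D) S A = wt D S A * (1 + if x ∈ A then 1 else 0) := by
  unfold wt
  by_cases hd : Disjoint A S
  · rw [if_pos hd, if_pos hd]
    by_cases h : x ∈ A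
    · rw [if_pos h]
      have h1 : A \ insert x D = (A \ D).erase x := by
        ext z
        simp only [mem_sdiff, mem_insert, mem_erase]
        tauto
      have h2 : x ∈ A \ D := mem_sdiff.2 ⟨h, hx⟩
      have h3 : #(A \ D) = #((A \ D).erase x) + 1 := by
        rw [Finset.card_erase_of_mem h2]
        have := Finset.card_pos.2 ⟨x, h2⟩
        omega
      rw [h1, h3, pow_succ]
      ring
    · rw [if_neg h]
      have h1 : A \ insert x D = A \ D := by
        ext z
        simp only [mem_sdiff, mem_insert]
        constructor
        · rintro ⟨h1, h2⟩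
          exact ⟨h1, fun h3 => h2 (Or.inr h3)⟩
        · rintro ⟨h1, h2⟩
          refine ⟨h1, ?_⟩
          rintro (rfl | h3)
          · exact h h1
          · exact h2 h3
      rw [h1]
      ring
  · rw [if_neg hd, if_neg hd, zero_mul]

omit [Fintype V] in
lemma wt_block (D S A : Finset V) (y : V) :
    wt D (S ∪ {y}) A = wt D S A * (1 - if y ∈ A then 1 else 0) := by
  unfold wt
  by_cases hd : Disjoint A S
  · by_cases h : y ∈ A
    · rw [if_pos h, if_neg, sub_self, mul_zero]
      intro h1
      exact Finset.disjoint_left.1 h1 h (mem_union_right _ (mem_singleton_self y))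
    · rw [if_neg h, sub_zero, mul_one, if_pos hd, if_pos]
      exact Finset.disjoint_union_right.2 ⟨hd, Finset.disjoint_singleton_right.2 h⟩
  · rw [if_neg hd, if_neg, zero_mul]
    intro h1
    exact hd (Finset.disjoint_union_right.1 h1).1

omit [Fintype V] in
lemma pot_insert (F : Finset (Finset V)) {D : Finset V} (S : Finset V) {x : V} (hx : x ∉ D) :
    pot F D S ≤ pot F (insert x D) S := by
  unfold pot
  refine Finset.sum_le_sum fun A _ => ?_
  rw [wt_insert S A hx]
  have := wt_nonneg D S A
  split_ifs <;> nlinarith

omit [Fintype V] in
lemma pot_step {F : Finset (Finset V)} (hF : ∀ A ∈ F, ∀ B ∈ F, A ≠ B → #(A ∩ B) ≤ 1)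
    {D S : Finset V} {x y : V} (hx : x ∉ D) (hy : y ∉ D) (hxy : x ≠ y)
    (hdeg : dg F D S y ≤ dg F D S x) :
    pot F D S - 1 / 4 ≤ pot F (insert x D) (S ∪ {y}) := by
  have h1 : pot F (insert x D) (S ∪ {y}) = pot F D S + dg F D S x - dg F D S y -
      ∑ A ∈ F, wt D S A * ((if x ∈ A then 1 else 0) * (if y ∈ A then 1 else 0)) := by
    unfold pot dg
    rw [← Finset.sum_add_distrib, ← Finset.sum_sub_distrib, ← Finset.sum_sub_distrib]
    refine Finset.sum_congr rfl fun A _ => ?_
    rw [wt_block, wt_insert S A hx]
    ring
  have h2 : ∑ A ∈ F, wt D S A * ((if x ∈ A then 1 else 0) * (if y ∈ A then 1 else 0)) ≤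
      (1 / 4 : ℝ) := by
    by_cases hex : ∃ A ∈ F, x ∈ A ∧ y ∈ A
    · obtain ⟨A, hA, hxA, hyA⟩ := hex
      rw [Finset.sum_eq_single_of_mem A hA]
      · rw [if_pos hxA, if_pos hyA, mul_one, mul_one]
        unfold wt
        split_ifs
        · have h3 : 2 ≤ #(A \ D) := by
            have h4 : ({x, y} : Finset V) ⊆ A \ D := by
              intro z hz
              rw [mem_insert, mem_singleton] at hz
              rcases hz with rfl | rfl
              · exact mem_sdiff.2 ⟨hxA, hx⟩
              · exact mem_sdiff.2 ⟨hyA, hy⟩
            have h5 := Finset.card_le_card h4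
            rwa [Finset.card_pair hxy] at h5
          calc (1 / 2 : ℝ) ^ #(A \ D) ≤ (1 / 2) ^ 2 :=
                pow_le_pow_of_le_one (by norm_num) (by norm_num) h3
            _ = 1 / 4 := by norm_num
        · norm_num
      · intro B hB hne
        by_cases hxB : x ∈ B
        · by_cases hyB : y ∈ B
          · exfalso
            have h3 := hF A hA B hB (Ne.symm hne)
            have h4 : ({x, y} : Finset V) ⊆ A ∩ B := by
              intro z hz
              rw [mem_insert, mem_singleton] at hz
              rcases hz with rfl | rfl
              · exact mem_inter.2 ⟨hxA, hxB⟩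
              · exact mem_inter.2 ⟨hyA, hyB⟩
            have h5 := Finset.card_le_card h4
            rw [Finset.card_pair hxy] at h5
            omega
          · rw [if_neg hyB]
            ring
        · rw [if_neg hxB]
          ring
    · rw [Finset.sum_eq_zero]
      · norm_num
      · intro A hA
        by_cases hxA : x ∈ A
        · by_cases hyA : y ∈ A
          · exact absurd ⟨A, hA, hxA, hyA⟩ hex
          · rw [if_neg hyA]
            ring
        · rw [if_neg hxA]
          ring
  rw [h1]
  linarith

/-- Beck's criterion. -/
theorem beck {F : Finset (Finset V)} (hF : ∀ A ∈ F, ∀ B ∈ F, A ≠ B → #(A ∩ B) ≤ 1)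
    {T : Finset V → Prop} (hT : ∀ D, (∃ A ∈ F, A ⊆ D) → T D) :
    ∀ (t : ℕ) (D S : Finset V), Disjoint D S → #((D ∪ S)ᶜ) ≤ t →
      (#((D ∪ S)ᶜ) : ℝ) / 8 < pot F D S → Forces T 1 t D S := by
  have hend : ∀ D S : Finset V, (D ∪ S)ᶜ = ∅ → 0 < pot F D S → T D := by
    intro D S hc hpos
    unfold pot at hpos
    obtain ⟨A, hA, hw⟩ : ∃ A ∈ F, 0 < wt D S A := by
      by_contra hcon
      push Not at hcon
      exact absurd hpos (not_lt.2 (Finset.sum_nonpos hcon))
    refine hT D ⟨A, hA, fun z hz => ?_⟩
    have hd : Disjoint A S := by
      by_contra hcon
      unfold wt at hw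
      rw [if_neg hcon] at hw
      exact lt_irrefl _ hw
    have hz' : z ∈ D ∪ S := by
      by_contra hcon
      have : z ∈ (D ∪ S)ᶜ := mem_compl.2 hcon
      rw [hc] at this
      simp at this
    rcases mem_union.1 hz' with h | h
    · exact h
    · exact absurd h (Finset.disjoint_left.1 hd hz)
  intro t
  induction t with
  | zero =>
    intro D S hDS hc hpot
    have h0 : (D ∪ S)ᶜ = ∅ := Finset.card_eq_zero.1 (by omega)
    rw [h0, Finset.card_empty] at hpot
    exact hend D S h0 (by simpa using hpot)
  | succ t ih =>
    intro D S hDS hc hpot
    rw [Forces]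
    rcases Finset.eq_empty_or_nonempty ((D ∪ S)ᶜ) with h0 | hne
    · left
      rw [h0, Finset.card_empty] at hpot
      exact hend D S h0 (by simpa using hpot)
    · right
      obtain ⟨x, hx, hmax⟩ := Finset.exists_max_image _ (dg F D S) hne
      have hx' : x ∉ D ∪ S := mem_compl.1 hx
      have hxD : x ∉ D := fun h => hx' (mem_union_left _ h)
      have hxS : x ∉ S := fun h => hx' (mem_union_right _ h)
      refine ⟨x, hx', Or.inr fun Z hZ hdis => ?_⟩
      rcases Nat.lt_or_ge 0 #Z with hZ1 | hZ0
      · obtain ⟨y, rfl⟩ := Finset.card_eq_one.1 (show #Z = 1 by omega)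
        rw [Finset.disjoint_singleton_left] at hdis
        have hyx : y ≠ x := fun h => hdis (mem_union_left _ (h ▸ mem_insert_self _ _))
        have hyD : y ∉ D := fun h => hdis (mem_union_left _ (mem_insert_of_mem h))
        have hyS : y ∉ S := fun h => hdis (mem_union_right _ h)
        have hyc : y ∈ (D ∪ S)ᶜ := mem_compl.2 (fun h => by
          rcases mem_union.1 h with h | h
          · exact hyD h
          · exact hyS h)
        have e1 : (insert x D ∪ (S ∪ {y}))ᶜ = (((D ∪ S)ᶜ).erase x).erase y := by
          ext z
          simp only [mem_compl, mem_union, mem_insert, mem_singleton, mem_erase]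
          tauto
        have hcard : #((insert x D ∪ (S ∪ {y}))ᶜ) + 2 = #((D ∪ S)ᶜ) := by
          rw [e1, Finset.card_erase_of_mem (mem_erase.2 ⟨hyx, hyc⟩), Finset.card_erase_of_mem hx]
          have h2 : 2 ≤ #((D ∪ S)ᶜ) := by
            have h4 : ({x, y} : Finset V) ⊆ (D ∪ S)ᶜ := by
              intro z hz
              rw [mem_insert, mem_singleton] at hz
              rcases hz with rfl | rfl
              · exact hx
              · exact hyc
            have h5 := Finset.card_le_card h4
            rwa [Finset.card_pair (Ne.symm hyx)] at h5
          omega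
        refine ih _ _ ?_ (by omega) ?_
        · rw [Finset.disjoint_left]
          intro z hz hz'
          rw [mem_insert] at hz
          rw [mem_union, mem_singleton] at hz'
          rcases hz with rfl | hz
          · rcases hz' with h | h
            · exact hxS h
            · exact hyx h.symm
          · rcases hz' with h | h
            · exact Finset.disjoint_left.1 hDS hz h
            · exact hyD (h ▸ hz)
        · have h6 := pot_step hF (S := S) hxD hyD (Ne.symm hyx) (hmax y hyc)
          have h7 : (#((insert x D ∪ (S ∪ {y}))ᶜ) : ℝ) + 2 = #((D ∪ S)ᶜ) := by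
            exact_mod_cast hcard
          linarith
      · have hZ' : Z = ∅ := Finset.card_eq_zero.1 (by omega)
        subst hZ'
        rw [Finset.union_empty]
        have e1 : (insert x D ∪ S)ᶜ = ((D ∪ S)ᶜ).erase x := by
          ext z
          simp only [mem_compl, mem_union, mem_insert, mem_erase]
          tauto
        have hcard : #((insert x D ∪ S)ᶜ) + 1 = #((D ∪ S)ᶜ) := by
          rw [e1, Finset.card_erase_of_mem hx]
          have := Finset.card_pos.2 hne
          omega
        refine ih _ _ ?_ (by omega) ?_
        · rw [Finset.disjoint_left]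
          intro z hz hz'
          rw [mem_insert] at hz
          rcases hz with rfl | hz
          · exact hxS hz'
          · exact Finset.disjoint_left.1 hDS hz hz'
        · have h6 := pot_insert F S hxD
          have h7 : (#((insert x D ∪ S)ᶜ) : ℝ) + 1 = #((D ∪ S)ᶜ) := by
            exact_mod_cast hcard
          linarith

/-- `γ_MB(G, b)` for the game in which Dominator moves first and claims one vertex per move and Staller
claims at most `b`: the least number of rounds within which she can force that her vertices contain a
dominating set. -/
noncomputable def timeMB {V : Type*} [DecidableEq V] (G : SimpleGraph V) (b : ℕ) : ℕ∞ :=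
  sInf {k : ℕ∞ | ∃ t : ℕ, k = t ∧ Forces (fun D => ∃ A ⊆ D, Dom G A) b t ∅ ∅}

/-- `s_MB(G, b)`: the least `s` such that she can force, in some number of rounds, that her vertices
contain a dominating set of size at most `s`. -/
noncomputable def sizeMB {V : Type*} [DecidableEq V] (G : SimpleGraph V) (b : ℕ) : ℕ∞ :=
  sInf {k : ℕ∞ | ∃ s : ℕ, k = s ∧ ∃ t : ℕ, Forces (fun D => ∃ A ⊆ D, Dom G A ∧ #A ≤ s) b t ∅ ∅}

/-- If no two dominating sets of size `r` have `r - 1` common vertices, then Dominator cannot win
within `r` rounds. -/
lemma lt_timeMB {G : SimpleGraph V} {r b : ℕ} (hb : 1 ≤ b) (hr : 2 ≤ r) (hn : r < Fintype.card V)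
    (h : ∀ A B : Finset V, Dom G A → Dom G B → #A = r → #B = r → #(A ∩ B) = r - 1 → A = B) :
    (r : ℕ∞) < timeMB G b := by
  -- no small dominating set
  have hsmall : ∀ A : Finset V, Dom G A → r ≤ #A := by
    intro A hA
    by_contra hcon
    push Not at hcon
    obtain ⟨C, hAC, -, hC⟩ := Finset.exists_subsuperset_card_eq (subset_univ A)
      (show #A ≤ r - 1 by omega) (by rw [Finset.card_univ]; omega)
    have h1 : 2 ≤ #(Cᶜ) := by
      rw [Finset.card_compl, hC]
      omega
    obtain ⟨y, hy, z, hz, hyz⟩ := Finset.one_lt_card.1 (show 1 < #(Cᶜ) by omega)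
    rw [mem_compl] at hy hz
    have h2 : insert y C = insert z C := by
      refine h _ _ ((hA.mono hAC).mono (subset_insert _ _)) ((hA.mono hAC).mono (subset_insert _ _))
        ?_ ?_ ?_
      · rw [Finset.card_insert_of_notMem hy, hC]
        omega
      · rw [Finset.card_insert_of_notMem hz, hC]
        omega
      · have : insert y C ∩ insert z C = C := by
          ext w
          simp only [mem_inter, mem_insert]
          constructor
          · rintro ⟨h1 | h1, h2 | h2⟩
            · exact absurd (h1.symm.trans h2) hyz
            · exact h2
            · exact h1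
            · exact h1
          · exact fun hw => ⟨Or.inr hw, Or.inr hw⟩
        rw [this, hC]
    have h3 : y ∈ insert z C := h2 ▸ mem_insert_self y C
    rcases mem_insert.1 h3 with h4 | h4
    · exact hyz h4
    · exact hy h4
  have key : ∀ (t : ℕ) (D S : Finset V), #D < r → #D + t ≤ r →
      (#D = r - 1 → ∀ x, x ∉ D ∪ S → ¬ Dom G (insert x D)) →
      ¬ Forces (fun D => ∃ A ⊆ D, Dom G A) b t D S := by
    intro t
    induction t with
    | zero =>
      rintro D S hD - - ⟨A, hAD, hA⟩
      have := hsmall A hA
      have := Finset.card_le_card hAD
      omega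
    | succ t ih =>
      intro D S hD hle hinv hw
      rw [Forces] at hw
      rcases hw with ⟨A, hAD, hA⟩ | ⟨x, hx, hw⟩
      · have := hsmall A hA
        have := Finset.card_le_card hAD
        omega
      · have hxD : x ∉ D := fun h => hx (mem_union_left _ h)
        have hc : #(insert x D) = #D + 1 := Finset.card_insert_of_notMem hxD
        have hno : ¬ ∃ A ⊆ insert x D, Dom G A := by
          rintro ⟨A, hAD, hA⟩
          have h1 := hsmall A hA
          have h2 := Finset.card_le_card hAD
          have h3 : #D = r - 1 := by omega
          exact hinv h3 x hx (hA.mono hAD)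
        rcases hw with hw | hw
        · exact hno hw
        · rcases Nat.lt_or_ge (#D + 1) r with h1 | h1
          · by_cases hex : #(insert x D) = r - 1 ∧ ∃ y, y ∉ insert x D ∪ S ∧
              Dom G (insert y (insert x D))
            · obtain ⟨h2, y, hy, hydom⟩ := hex
              have h3 := hw {y} (by simpa using hb) (by simpa using hy)
              refine ih (insert x D) (S ∪ {y}) (by omega) (by omega) ?_ h3
              intro _ z hz hzdom
              have hyD : y ∉ insert x D := fun h => hy (mem_union_left _ h)
              have hzD : z ∉ insert x D := fun h => hz (mem_union_left _ h)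
              have hzy : z ≠ y := by
                rintro rfl
                exact hz (mem_union_right _ (mem_union_right _ (mem_singleton_self _)))
              have h4 : insert y (insert x D) = insert z (insert x D) := by
                refine h _ _ hydom hzdom ?_ ?_ ?_
                · rw [Finset.card_insert_of_notMem hyD, h2]
                  omega
                · rw [Finset.card_insert_of_notMem hzD, h2]
                  omega
                · have : insert y (insert x D) ∩ insert z (insert x D) = insert x D := by
                    ext w
                    rw [mem_inter, mem_insert (a := w) (b := y), mem_insert (a := w) (b := z)]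
                    constructor
                    · rintro ⟨h1 | h1, h2 | h2⟩
                      · exact absurd (h2.symm.trans h1) hzy
                      · exact h2
                      · exact h1
                      · exact h1
                    · exact fun hw => ⟨Or.inr hw, Or.inr hw⟩
                  rw [this, h2]
              have h5 : y ∈ insert z (insert x D) := h4 ▸ mem_insert_self y _
              rcases mem_insert.1 h5 with h6 | h6
              · exact hzy h6.symm
              · exact hyD h6
            · have h3 := hw ∅ (by simp) (by simp)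
              rw [Finset.union_empty] at h3
              refine ih (insert x D) S (by omega) (by omega) ?_ h3
              intro h4 y hy hydom
              exact hex ⟨h4, y, hy, hydom⟩
          · have h2 : t = 0 := by omega
            subst h2
            have h3 := hw ∅ (by simp) (by simp)
            exact hno h3
  have hle : ((r + 1 : ℕ) : ℕ∞) ≤ timeMB G b := by
    refine le_sInf ?_
    rintro s ⟨t, rfl, ht⟩
    have : r + 1 ≤ t := by
      by_contra hcon
      push Not at hcon
      refine key t ∅ ∅ (by simp; omega) (by simp; omega) ?_ ht
      intro h1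
      simp at h1
      omega
    exact_mod_cast this
  exact lt_of_lt_of_le (by exact_mod_cast Nat.lt_succ_self r) hle

end Pool.Agent.V11328.DG
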