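import Pool.Agent.V11328.DG.Z

/-! First and second moment of the number of dominating sets of size `r`. -/

open MeasureTheory ProbabilityTheory unitInterval Finset
open scoped SimpleGraph

namespace Pool.Agent.V11328.DG

variable {V : Type*} [Fintype V] [DecidableEq V]

/-- `A` is a dominating set of `G`. -/
def Dom {V : Type*} (G : SimpleGraph V) (A : Finset V) : Prop := ∀ v ∉ A, ∃ u ∈ A, G.Adj v u

open Classical in
/-- The number of dominating sets of size `r`. -/
noncomputable def X (r : ℕ) (G : SimpleGraph V) : ℕ :=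
  #{A ∈ (univ : Finset V).powersetCard r | Dom G A}

omit [Fintype V] in
lemma both_self (A : Finset V) (G : SimpleGraph V) : Both A A G ↔ Dom G A := by
  unfold Both Dom
  rw [Finset.union_self]
  exact forall_congr' fun v => forall_congr' fun _ => and_self_iff

omit [Fintype V] in
lemma both_of {A B : Finset V} {G : SimpleGraph V} (hA : Dom G A) (hB : Dom G B) : Both A B G :=
  fun v hv => ⟨hA v (fun h => hv (mem_union_left _ h)), hB v (fun h => hv (mem_union_right _ h))⟩

omit [DecidableEq V] in
open Classical in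
lemma X_eq (r : ℕ) (G : SimpleGraph V) :
    (X r G : ℝ) = ∑ A ∈ (univ : Finset V).powersetCard r, if Dom G A then 1 else 0 := by
  unfold X
  rw [Finset.sum_boole]

/-- First moment. -/
lemma first (p : ℝ) (r : ℕ) :
    ∑ G : SimpleGraph V, gw p G * (X r G : ℝ) =
      (Fintype.card V).choose r * (1 - (1 - p) ^ r) ^ (Fintype.card V - r) := by
  classical
  simp_rw [X_eq, Finset.mul_sum]
  rw [Finset.sum_comm]
  have h : ∀ A ∈ (univ : Finset V).powersetCard r,
      ∑ G : SimpleGraph V, gw p G * (if Dom G A then 1 else 0) =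
        (1 - (1 - p) ^ r) ^ (Fintype.card V - r) := by
    intro A hA
    rw [mem_powersetCard] at hA
    have h1 := sum_both (V := V) p A A
    simp_rw [both_self] at h1
    rw [Finset.union_self, hA.2] at h1
    rw [h1]
    congr 1
    ring
  rw [Finset.sum_congr rfl h, Finset.sum_const, Finset.card_powersetCard, Finset.card_univ,
    nsmul_eq_mul]

lemma pair_count (r s : ℕ) {A : Finset V} (hA : #A = r) :
    #{B ∈ (univ : Finset V).powersetCard r | #(A ∩ B) = s} ≤
      r.choose s * (Fintype.card V - r).choose (r - s) := by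
  have h1 : r.choose s * (Fintype.card V - r).choose (r - s) =
      #(A.powersetCard s ×ˢ Aᶜ.powersetCard (r - s)) := by
    rw [Finset.card_product, Finset.card_powersetCard, Finset.card_powersetCard, hA,
      Finset.card_compl, hA]
  rw [h1]
  refine Finset.card_le_card_of_injOn (fun B => (A ∩ B, B \ A)) ?_ ?_
  · intro B hB
    rw [mem_coe, mem_filter, mem_powersetCard] at hB
    rw [mem_coe, mem_product, mem_powersetCard, mem_powersetCard]
    refine ⟨⟨inter_subset_left, hB.2⟩, ?_, ?_⟩
    · intro x hx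
      rw [mem_sdiff] at hx
      exact mem_compl.2 hx.2
    · have h2 := Finset.card_sdiff_add_card_inter B A
      rw [Finset.inter_comm B A] at h2
      simp only
      omega
  · intro B _ B' _ h
    simp only [Prod.mk.injEq] at h
    rw [← Finset.sdiff_union_inter B A, ← Finset.sdiff_union_inter B' A, h.2,
      Finset.inter_comm B A, Finset.inter_comm B' A, h.1]

/-- The contribution to the second moment of the pairs with intersection of size `s`. -/
noncomputable def term (n r : ℕ) (q : ℝ) (s : ℕ) : ℝ :=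
  (r.choose s * (n - r).choose (r - s) : ℕ) * (1 - 2 * q ^ r + q ^ (2 * r - s)) ^ (n - (2 * r - s))

/-- Second moment. -/
lemma second {p : ℝ} (h0 : 0 ≤ p) (h1 : p ≤ 1) (r : ℕ) :
    ∑ G : SimpleGraph V, gw p G * ((X r G : ℝ) * ((X r G : ℝ) - 1)) ≤
      (Fintype.card V).choose r * ∑ s ∈ range r, term (Fintype.card V) r (1 - p) s := by
  classical
  set P := (univ : Finset V).powersetCard r with hP
  have hX : ∀ G : SimpleGraph V, (X r G : ℝ) * ((X r G : ℝ) - 1) ≤
      ∑ A ∈ P, ∑ B ∈ P.filter (· ≠ A), if Both A B G then 1 else 0 := by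
    intro G
    have e1 : (X r G : ℝ) * ((X r G : ℝ) - 1) =
        ∑ A ∈ P, (if Dom G A then (1 : ℝ) else 0) * ((X r G : ℝ) - 1) := by
      rw [← Finset.sum_mul, ← X_eq]
    rw [e1]
    refine Finset.sum_le_sum fun A hA => ?_
    by_cases hd : Dom G A
    · rw [if_pos hd, one_mul, X_eq, ← Finset.add_sum_erase P _ hA, if_pos hd, add_sub_cancel_left]
      have e2 : P.erase A = P.filter (· ≠ A) := by
        ext B
        simp only [mem_erase, mem_filter]
        tauto
      rw [e2]
      refine Finset.sum_le_sum fun B hB => ?_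
      by_cases hB' : Dom G B
      · rw [if_pos hB', if_pos (both_of hd hB')]
      · rw [if_neg hB']
        split_ifs <;> norm_num
    · rw [if_neg hd, zero_mul]
      exact Finset.sum_nonneg fun B _ => by split_ifs <;> norm_num
  calc ∑ G : SimpleGraph V, gw p G * ((X r G : ℝ) * ((X r G : ℝ) - 1))
      ≤ ∑ G : SimpleGraph V, gw p G *
          ∑ A ∈ P, ∑ B ∈ P.filter (· ≠ A), (if Both A B G then (1 : ℝ) else 0) :=
        Finset.sum_le_sum fun G _ => mul_le_mul_of_nonneg_left (hX G) (gw_nonneg h0 h1 G)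
    _ = ∑ A ∈ P, ∑ B ∈ P.filter (· ≠ A),
          ∑ G : SimpleGraph V, gw p G * (if Both A B G then (1 : ℝ) else 0) := by
        simp_rw [Finset.mul_sum]
        rw [Finset.sum_comm]
        refine Finset.sum_congr rfl fun A _ => ?_
        rw [Finset.sum_comm]
    _ ≤ ∑ A ∈ P, ∑ s ∈ range r, term (Fintype.card V) r (1 - p) s := ?_
    _ = (Fintype.card V).choose r * ∑ s ∈ range r, term (Fintype.card V) r (1 - p) s := by
        rw [Finset.sum_const, hP, Finset.card_powersetCard, Finset.card_univ, nsmul_eq_mul]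
  refine Finset.sum_le_sum fun A hA => ?_
  rw [hP, mem_powersetCard] at hA
  have hq : 0 ≤ (1 - p) := by linarith
  have hmaps : ∀ B ∈ P.filter (· ≠ A), #(A ∩ B) ∈ range r := by
    intro B hB
    rw [mem_filter, hP, mem_powersetCard] at hB
    rw [mem_range]
    by_contra hcon
    push Not at hcon
    have h2 : #(A ∩ B) ≤ #A := Finset.card_le_card inter_subset_left
    have h3 : A ∩ B = A := Finset.eq_of_subset_of_card_le inter_subset_left (by rw [hA.2]; exact hcon)
    have h4 : A ⊆ B := by rw [← h3]; exact inter_subset_right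
    exact hB.2 (Finset.eq_of_subset_of_card_le h4 (by rw [hA.2, hB.1.2])).symm
  rw [← Finset.sum_fiberwise_of_maps_to hmaps]
  refine Finset.sum_le_sum fun s _ => ?_
  have hterm : ∀ B ∈ (P.filter (· ≠ A)).filter (fun B => #(A ∩ B) = s),
      ∑ G : SimpleGraph V, gw p G * (if Both A B G then (1 : ℝ) else 0) =
        (1 - 2 * (1 - p) ^ r + (1 - p) ^ (2 * r - s)) ^ (Fintype.card V - (2 * r - s)) := by
    intro B hB
    rw [mem_filter, mem_filter, hP, mem_powersetCard] at hB
    have h5 := Finset.card_union_add_card_inter A B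
    have h6 : #(A ∪ B) = 2 * r - s := by
      rw [hA.2, hB.1.1.2, hB.2] at h5
      omega
    rw [sum_both p A B, h6, hA.2, hB.1.1.2]
    congr 1
    ring
  rw [Finset.sum_congr rfl hterm, Finset.sum_const, nsmul_eq_mul]
  unfold term
  have hbase : 0 ≤ 1 - 2 * (1 - p) ^ r + (1 - p) ^ (2 * r - s) := by
    have h7 : (1 - p) ^ (2 * r) ≤ (1 - p) ^ (2 * r - s) :=
      pow_le_pow_of_le_one hq (by linarith) (Nat.sub_le _ _)
    have h8 : (1 - p) ^ (2 * r) = ((1 - p) ^ r) ^ 2 := by rw [mul_comm, pow_mul]
    nlinarith [sq_nonneg (1 - (1 - p) ^ r)]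
  refine mul_le_mul_of_nonneg_right ?_ (pow_nonneg hbase _)
  have h9 := pair_count r s hA.2
  have h10 : #((P.filter (· ≠ A)).filter (fun B => #(A ∩ B) = s)) ≤
      #{B ∈ (univ : Finset V).powersetCard r | #(A ∩ B) = s} := by
    refine Finset.card_le_card fun B hB => ?_
    rw [mem_filter, mem_filter] at hB
    exact mem_filter.2 ⟨hB.1.1, hB.2⟩
  exact_mod_cast h10.trans h9

/-- The probability that there is exactly one dominating set of size `r`. -/
lemma prob_one (p : I) (r : ℕ) :
    ((Fintype.card V).choose r * (1 - (1 - (p : ℝ)) ^ r) ^ (Fintype.card V - r) -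
      (Fintype.card V).choose r * ∑ s ∈ range r, term (Fintype.card V) r (1 - (p : ℝ)) s : ℝ) ≤
      (G(V, p)).real {G | X r G = 1} := by
  classical
  rw [real_event]
  have h1 := first (V := V) (p : ℝ) r
  have h2 := second (V := V) p.2.1 p.2.2 r
  have h3 : ∑ G : SimpleGraph V, gw (p : ℝ) G * ((X r G : ℝ) - (X r G : ℝ) * ((X r G : ℝ) - 1)) ≤
      ∑ G ∈ univ.filter (· ∈ {G : SimpleGraph V | X r G = 1}), gw (p : ℝ) G := by
    rw [Finset.sum_filter]
    refine Finset.sum_le_sum fun G _ => ?_
    have hg := gw_nonneg p.2.1 p.2.2 G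
    by_cases h : X r G = 1
    · rw [if_pos (show G ∈ {G : SimpleGraph V | X r G = 1} from h), h]
      norm_num
    · rw [if_neg (show G ∉ {G : SimpleGraph V | X r G = 1} from h)]
      refine mul_nonpos_of_nonneg_of_nonpos hg ?_
      rcases Nat.lt_or_ge (X r G) 1 with h4 | h4
      · have : X r G = 0 := by omega
        rw [this]
        norm_num
      · have h5 : (2 : ℝ) ≤ X r G := by exact_mod_cast (show 2 ≤ X r G by omega)
        nlinarith
  have h4 : ∑ G : SimpleGraph V, gw (p : ℝ) G * ((X r G : ℝ) - (X r G : ℝ) * ((X r G : ℝ) - 1)) =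
      ∑ G : SimpleGraph V, gw (p : ℝ) G * (X r G : ℝ) -
        ∑ G : SimpleGraph V, gw (p : ℝ) G * ((X r G : ℝ) * ((X r G : ℝ) - 1)) := by
    rw [← Finset.sum_sub_distrib]
    exact Finset.sum_congr rfl fun G _ => by ring
  rw [h4, h1] at h3
  linarith

end Pool.Agent.V11328.DG
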