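import Pool.Agent.V11328.DG.Maker

/-! Pairs of dominating sets of size `r` with prescribed intersections. -/

open MeasureTheory Finset unitInterval
open scoped SimpleGraph

namespace Pool.Agent.V11328.DG

variable {V : Type*} [Fintype V] [DecidableEq V]

open Classical in
/-- The number of ordered pairs of distinct dominating sets of size `r` whose intersection has size in
`J`. -/
noncomputable def YJ (r : ℕ) (J : Finset ℕ) (G : SimpleGraph V) : ℕ :=
  #{q ∈ (univ : Finset V).powersetCard r ×ˢ (univ : Finset V).powersetCard r |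
    q.1 ≠ q.2 ∧ Dom G q.1 ∧ Dom G q.2 ∧ #(q.1 ∩ q.2) ∈ J}

/-- First moment of the number of pairs. -/
lemma mom_YJ {p : ℝ} (h0 : 0 ≤ p) (h1 : p ≤ 1) (r : ℕ) {J : Finset ℕ} :
    ∑ G : SimpleGraph V, gw p G * (YJ r J G : ℝ) ≤
      (Fintype.card V).choose r * ∑ s ∈ J, term (Fintype.card V) r (1 - p) s := by
  classical
  set P := (univ : Finset V).powersetCard r with hP
  have hX : ∀ G : SimpleGraph V, (YJ r J G : ℝ) ≤
      ∑ A ∈ P, ∑ B ∈ P.filter (fun B => #(A ∩ B) ∈ J), if Both A B G then 1 else 0 := by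
    intro G
    unfold YJ
    rw [← hP, ← Finset.sum_boole]
    rw [Finset.sum_product]
    refine Finset.sum_le_sum fun A _ => ?_
    rw [Finset.sum_filter]
    refine Finset.sum_le_sum fun B _ => ?_
    by_cases h : A ≠ B ∧ Dom G A ∧ Dom G B ∧ #(A ∩ B) ∈ J
    · rw [if_pos h, if_pos h.2.2.2, if_pos (both_of h.2.1 h.2.2.1)]
    · rw [if_neg h]
      split_ifs <;> norm_num
  have hq : 0 ≤ (1 - p) := by linarith
  calc ∑ G : SimpleGraph V, gw p G * (YJ r J G : ℝ)
      ≤ ∑ G : SimpleGraph V, gw p G *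
          ∑ A ∈ P, ∑ B ∈ P.filter (fun B => #(A ∩ B) ∈ J), (if Both A B G then (1 : ℝ) else 0) :=
        Finset.sum_le_sum fun G _ => mul_le_mul_of_nonneg_left (hX G) (gw_nonneg h0 h1 G)
    _ = ∑ A ∈ P, ∑ B ∈ P.filter (fun B => #(A ∩ B) ∈ J),
          ∑ G : SimpleGraph V, gw p G * (if Both A B G then (1 : ℝ) else 0) := by
        simp_rw [Finset.mul_sum]
        rw [Finset.sum_comm]
        refine Finset.sum_congr rfl fun A _ => ?_
        rw [Finset.sum_comm]
    _ ≤ ∑ A ∈ P, ∑ s ∈ J, term (Fintype.card V) r (1 - p) s := ?_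
    _ = (Fintype.card V).choose r * ∑ s ∈ J, term (Fintype.card V) r (1 - p) s := by
        rw [Finset.sum_const, hP, Finset.card_powersetCard, Finset.card_univ, nsmul_eq_mul]
  refine Finset.sum_le_sum fun A hA => ?_
  rw [hP, mem_powersetCard] at hA
  have hmaps : ∀ B ∈ P.filter (fun B => #(A ∩ B) ∈ J), #(A ∩ B) ∈ J := fun B hB =>
    (mem_filter.1 hB).2
  rw [← Finset.sum_fiberwise_of_maps_to hmaps]
  refine Finset.sum_le_sum fun s _ => ?_
  have hterm : ∀ B ∈ (P.filter (fun B => #(A ∩ B) ∈ J)).filter (fun B => #(A ∩ B) = s),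
      ∑ G : SimpleGraph V, gw p G * (if Both A B G then (1 : ℝ) else 0) =
        (1 - 2 * (1 - p) ^ r + (1 - p) ^ (2 * r - s)) ^ (Fintype.card V - (2 * r - s)) := by
    intro B hB
    rw [mem_filter, mem_filter, hP, mem_powersetCard] at hB
    have h5 := Finset.card_union_add_card_inter A B
    have h6 : #(A ∪ B) = 2 * r - s := by
      rw [hA.2, hB.1.1.2, hB.2] at h5
      omega
    rw [sum_both p A B, h6, hA.2, hB.1.1.2]
    congr 1
    ring
  rw [Finset.sum_congr rfl hterm, Finset.sum_const, nsmul_eq_mul]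
  unfold term
  have hbase : 0 ≤ 1 - 2 * (1 - p) ^ r + (1 - p) ^ (2 * r - s) := by
    have h7 : (1 - p) ^ (2 * r) ≤ (1 - p) ^ (2 * r - s) :=
      pow_le_pow_of_le_one hq (by linarith) (Nat.sub_le _ _)
    have h8 : (1 - p) ^ (2 * r) = ((1 - p) ^ r) ^ 2 := by rw [mul_comm, pow_mul]
    nlinarith [sq_nonneg (1 - (1 - p) ^ r)]
  refine mul_le_mul_of_nonneg_right ?_ (pow_nonneg hbase _)
  have h9 := pair_count r s hA.2
  have h10 : #((P.filter (fun B => #(A ∩ B) ∈ J)).filter (fun B => #(A ∩ B) = s)) ≤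
      #{B ∈ (univ : Finset V).powersetCard r | #(A ∩ B) = s} := by
    refine Finset.card_le_card fun B hB => ?_
    rw [mem_filter, mem_filter] at hB
    exact mem_filter.2 ⟨hB.1.1, hB.2⟩
  exact_mod_cast h10.trans h9

/-- If there are many dominating sets of size `r` and few pairs of them meeting in at least two vertices,
then Dominator can claim a dominating set of size at most `r`. -/
lemma sizeMB_le {G : SimpleGraph V} {r : ℕ} {J : Finset ℕ} (hJ : ∀ s, 2 ≤ s → s < r → s ∈ J)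
    (h : (Fintype.card V : ℝ) / 8 < ((X r G : ℝ) - YJ r J G) * (1 / 2) ^ r) :
    sizeMB G 1 ≤ r := by
  classical
  set P := (univ : Finset V).powersetCard r with hP
  set Q := P.filter (fun A => Dom G A) with hQ
  set F := Q.filter (fun A => ∀ B ∈ Q, A ≠ B → #(A ∩ B) ≤ 1) with hFdef
  have hmem : ∀ A ∈ F, #A = r ∧ Dom G A := by
    intro A hA
    rw [hFdef, mem_filter, hQ, mem_filter, hP, mem_powersetCard] at hA
    exact ⟨hA.1.1.2, hA.1.2⟩
  have hXQ : X r G = #Q := by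
    unfold X
    rfl
  -- the bad sets
  have hbad : #(Q \ F) ≤ YJ r J G := by
    have hch : ∀ A ∈ Q \ F, ∃ B ∈ Q, A ≠ B ∧ 2 ≤ #(A ∩ B) := by
      intro A hA
      rw [mem_sdiff] at hA
      have h1 : ¬ ∀ B ∈ Q, A ≠ B → #(A ∩ B) ≤ 1 := fun hh => hA.2 (mem_filter.2 ⟨hA.1, hh⟩)
      push Not at h1
      obtain ⟨B, hB, hne, hc⟩ := h1
      exact ⟨B, hB, hne, hc⟩
    choose! φ hφ using hch
    unfold YJ
    refine Finset.card_le_card_of_injOn (fun A => (A, φ A)) ?_ ?_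
    · intro A hA
      have hA' : A ∈ Q \ F := hA
      obtain ⟨h1, h2, h3⟩ := hφ A hA'
      have hAQ : A ∈ Q := (mem_sdiff.1 hA').1
      rw [hQ, mem_filter, hP, mem_powersetCard] at hAQ h1
      rw [mem_coe, mem_filter, mem_product, mem_powersetCard, mem_powersetCard]
      refine ⟨⟨hAQ.1, h1.1⟩, h2, hAQ.2, h1.2, hJ _ h3 ?_⟩
      by_contra hcon
      push Not at hcon
      have h4 : A ∩ φ A = A := Finset.eq_of_subset_of_card_le inter_subset_left
        (by rw [hAQ.1.2]; exact hcon)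
      have h5 : A ⊆ φ A := by
        intro z hz
        rw [← h4] at hz
        exact (mem_inter.1 hz).2
      exact h2 (Finset.eq_of_subset_of_card_le h5 (by rw [hAQ.1.2, h1.1.2]))
    · intro A _ B _ hAB
      exact (Prod.mk.inj hAB).1
  have hcard : #Q = #F + #(Q \ F) := by
    have : F ⊆ Q := filter_subset _ _
    rw [Finset.card_sdiff_of_subset this]
    have := Finset.card_le_card this
    omega
  have hF : ∀ A ∈ F, ∀ B ∈ F, A ≠ B → #(A ∩ B) ≤ 1 := by
    intro A hA B hB hne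
    rw [hFdef, mem_filter] at hA hB
    exact hA.2 B hB.1 hne
  have hpot : pot F (∅ : Finset V) ∅ = #F * (1 / 2) ^ r := by
    unfold pot
    have : ∀ A ∈ F, wt (∅ : Finset V) ∅ A = (1 / 2 : ℝ) ^ r := by
      intro A hA
      unfold wt
      rw [if_pos (Finset.disjoint_empty_right A), Finset.sdiff_empty, (hmem A hA).1]
    rw [Finset.sum_congr rfl this, Finset.sum_const, nsmul_eq_mul]
  have hlt : (#(((∅ : Finset V) ∪ ∅)ᶜ) : ℝ) / 8 < pot F (∅ : Finset V) ∅ := by
    rw [hpot, Finset.union_empty, Finset.compl_empty, Finset.card_univ]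
    refine lt_of_lt_of_le h ?_
    refine mul_le_mul_of_nonneg_right ?_ (by positivity)
    rw [hXQ, hcard]
    have h5 : (#(Q \ F) : ℝ) ≤ YJ r J G := by exact_mod_cast hbad
    push_cast
    linarith
  have hw := beck hF (T := fun D => ∃ A ⊆ D, Dom G A ∧ #A ≤ r)
    (fun D ⟨A, hA, hAD⟩ => ⟨A, hAD, (hmem A hA).2, (hmem A hA).1.le⟩)
    (Fintype.card V) ∅ ∅ (by simp) (by simp) hlt
  exact sInf_le ⟨r, rfl, _, hw⟩

/-- If no pair of dominating sets of size `r` has `r - 1` common vertices then Dominator needs more than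
`r` rounds. -/
lemma lt_timeMB_of_YJ {G : SimpleGraph V} {r b : ℕ} (hb : 1 ≤ b) (hr : 2 ≤ r)
    (hn : r < Fintype.card V) (h : YJ r {r - 1} G = 0) : (r : ℕ∞) < timeMB G b := by
  classical
  refine lt_timeMB hb hr hn fun A B hA hB hA' hB' hAB => ?_
  by_contra hne
  unfold YJ at h
  rw [Finset.card_eq_zero] at h
  have : (A, B) ∈ (∅ : Finset (Finset V × Finset V)) := by
    rw [← h, mem_filter, mem_product, mem_powersetCard, mem_powersetCard]
    exact ⟨⟨⟨subset_univ _, hA'⟩, ⟨subset_univ _, hB'⟩⟩, hne, hA, hB, mem_singleton.2 hAB⟩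
  simp at this

/-- Probability of the good event: `μ` expectation of `X`, `μ2` and `μ1` bounds for the expectations of
the numbers of bad pairs. -/
lemma prob_good (p : I) (r : ℕ) {μ : ℝ} (hμ : 1 ≤ μ)
    (h1 : (Fintype.card V).choose r * (1 - (1 - (p : ℝ)) ^ r) ^ (Fintype.card V - r) = μ)
    (h2 : (Fintype.card V).choose r * ∑ s ∈ range r, term (Fintype.card V) r (1 - (p : ℝ)) s ≤
      4 * μ ^ 2)
    (h3 : (Fintype.card V).choose r * ∑ s ∈ Ico 2 r, term (Fintype.card V) r (1 - (p : ℝ)) s ≤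
      μ / 8 * (1 / 72))
    (h4 : (Fintype.card V).choose r * ∑ s ∈ {r - 1}, term (Fintype.card V) r (1 - (p : ℝ)) s ≤
      1 / 72) :
    1 / 36 ≤ (G(V, p)).real {G | μ / 2 ≤ X r G ∧ (YJ r (Ico 2 r) G : ℝ) ≤ μ / 8 ∧
      YJ r {r - 1} G = 0} := by
  classical
  rw [real_event]
  have m1 := first (V := V) (p : ℝ) r
  have m2 := second (V := V) p.2.1 p.2.2 r
  have m3 := mom_YJ (V := V) p.2.1 p.2.2 r (J := Ico 2 r)
  have m4 := mom_YJ (V := V) p.2.1 p.2.2 r (J := {r - 1})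
  rw [h1] at m1
  have hμ0 : 0 < μ := by linarith
  set E := {G : SimpleGraph V | μ / 2 ≤ X r G ∧ (YJ r (Ico 2 r) G : ℝ) ≤ μ / 8 ∧
      YJ r {r - 1} G = 0} with hE
  have key : ∑ G : SimpleGraph V, gw (p : ℝ) G * ((2 / 9) * (X r G / μ - 1 / 2) -
        (1 / 90) * ((X r G : ℝ) / μ) ^ 2 - 8 / μ * YJ r (Ico 2 r) G - YJ r {r - 1} G) ≤
      ∑ G ∈ univ.filter (· ∈ E), gw (p : ℝ) G := by
    rw [Finset.sum_filter]
    refine Finset.sum_le_sum fun G _ => ?_
    have hg := gw_nonneg p.2.1 p.2.2 G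
    have hy2 : (0 : ℝ) ≤ YJ r (Ico 2 r) G := Nat.cast_nonneg _
    have hy1 : (0 : ℝ) ≤ YJ r {r - 1} G := Nat.cast_nonneg _
    have hz : 0 ≤ (X r G : ℝ) / μ := by positivity
    set z := (X r G : ℝ) / μ with hzdef
    have hle1 : (2 / 9) * (z - 1 / 2) - (1 / 90) * z ^ 2 ≤ 1 := by nlinarith [sq_nonneg (z - 10)]
    have h8 : 0 ≤ 8 / μ * (YJ r (Ico 2 r) G : ℝ) := by positivity
    by_cases h : G ∈ E
    · rw [if_pos h]
      have : gw (p : ℝ) G * ((2 / 9) * (z - 1 / 2) - (1 / 90) * z ^ 2 -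
          8 / μ * YJ r (Ico 2 r) G - YJ r {r - 1} G) ≤ gw (p : ℝ) G * 1 :=
        mul_le_mul_of_nonneg_left (by linarith) hg
      linarith
    · rw [if_neg h]
      refine mul_nonpos_of_nonneg_of_nonpos hg ?_
      by_cases ha : μ / 2 ≤ X r G
      · by_cases hb : (YJ r (Ico 2 r) G : ℝ) ≤ μ / 8
        · have hc : YJ r {r - 1} G ≠ 0 := fun hc => h ⟨ha, hb, hc⟩
          have hc' : (1 : ℝ) ≤ YJ r {r - 1} G := by
            exact_mod_cast Nat.one_le_iff_ne_zero.2 hc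
          linarith
        · push Not at hb
          have : 1 < 8 / μ * (YJ r (Ico 2 r) G : ℝ) := by
            rw [div_mul_eq_mul_div, lt_div_iff₀ hμ0]
            linarith
          linarith
      · push Not at ha
        have hz2 : z < 1 / 2 := by
          rw [hzdef, div_lt_iff₀ hμ0]
          linarith
        nlinarith [sq_nonneg z]
  have hsum : ∑ G : SimpleGraph V, gw (p : ℝ) G * ((2 / 9) * (X r G / μ - 1 / 2) -
        (1 / 90) * ((X r G : ℝ) / μ) ^ 2 - 8 / μ * YJ r (Ico 2 r) G - YJ r {r - 1} G) =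
      (2 / 9 / μ - 1 / 90 / μ ^ 2) * ∑ G : SimpleGraph V, gw (p : ℝ) G * (X r G : ℝ) -
        1 / 9 * ∑ G : SimpleGraph V, gw (p : ℝ) G -
        1 / 90 / μ ^ 2 * ∑ G : SimpleGraph V, gw (p : ℝ) G * ((X r G : ℝ) * ((X r G : ℝ) - 1)) -
        8 / μ * ∑ G : SimpleGraph V, gw (p : ℝ) G * (YJ r (Ico 2 r) G : ℝ) -
        ∑ G : SimpleGraph V, gw (p : ℝ) G * (YJ r {r - 1} G : ℝ) := by
    rw [Finset.mul_sum, Finset.mul_sum, Finset.mul_sum, Finset.mul_sum,
      ← Finset.sum_sub_distrib, ← Finset.sum_sub_distrib, ← Finset.sum_sub_distrib,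
      ← Finset.sum_sub_distrib]
    refine Finset.sum_congr rfl fun G _ => ?_
    field_simp
    ring
  rw [hsum, m1, sum_gw] at key
  refine le_trans ?_ key
  have a1 : (2 / 9 / μ - 1 / 90 / μ ^ 2) * μ = 2 / 9 - 1 / 90 / μ := by
    field_simp
  have a2 : 1 / 90 / μ ^ 2 * ∑ G : SimpleGraph V, gw (p : ℝ) G * ((X r G : ℝ) * ((X r G : ℝ) - 1)) ≤
      1 / 90 / μ ^ 2 * (4 * μ ^ 2) := mul_le_mul_of_nonneg_left (m2.trans h2) (by positivity)
  have a3 : 1 / 90 / μ ^ 2 * (4 * μ ^ 2) = 4 / 90 := by field_simp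
  have a4 : 8 / μ * ∑ G : SimpleGraph V, gw (p : ℝ) G * (YJ r (Ico 2 r) G : ℝ) ≤
      8 / μ * (μ / 8 * (1 / 72)) := mul_le_mul_of_nonneg_left (m3.trans h3) (by positivity)
  have a5 : 8 / μ * (μ / 8 * (1 / 72)) = 1 / 72 := by field_simp
  have a6 := m4.trans h4
  have a7 : 1 / 90 / μ ≤ 1 / 90 := by
    rw [div_le_iff₀ hμ0]
    nlinarith
  rw [a1]
  linarith

end Pool.Agent.V11328.DG
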