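import Pool.Agent.V11328.Gnp

/-! Independence over disjoint sets of pairs for the binomial random graph, and the probability that
every vertex outside two sets has a neighbour in both of them. -/

open MeasureTheory ProbabilityTheory unitInterval Finset
open scoped SimpleGraph

namespace Pool.Agent.V11328.DG

section
variable {ι : Type*} [DecidableEq ι]

/-- Expectation of `F` of a random subset of `E`. -/
noncomputable def Z (p : ℝ) (E : Finset ι) (F : Finset ι → ℝ) : ℝ :=
  ∑ S ∈ E.powerset, p ^ #S * (1 - p) ^ #(E \ S) * F S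

lemma Z_congr {p : ℝ} {E : Finset ι} {F F' : Finset ι → ℝ} (h : ∀ S ⊆ E, F S = F' S) :
    Z p E F = Z p E F' := by
  unfold Z
  refine Finset.sum_congr rfl fun S hS => ?_
  rw [h S (mem_powerset.1 hS)]

lemma Z_mono {p : ℝ} (h0 : 0 ≤ p) (h1 : p ≤ 1) {E : Finset ι} {F F' : Finset ι → ℝ}
    (h : ∀ S ⊆ E, F S ≤ F' S) : Z p E F ≤ Z p E F' := by
  unfold Z
  refine Finset.sum_le_sum fun S hS => ?_
  have : 0 ≤ 1 - p := by linarith
  exact mul_le_mul_of_nonneg_left (h S (mem_powerset.1 hS)) (by positivity)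

lemma Z_avoid (p : ℝ) {E T : Finset ι} (hT : T ⊆ E) :
    Z p E (fun S => if Disjoint S T then 1 else 0) = (1 - p) ^ #T := by
  classical
  have h := Finset.prod_add (fun i => if i ∈ T then (0 : ℝ) else p) (fun _ => 1 - p) E
  have h1 : ∏ i ∈ E, ((if i ∈ T then (0 : ℝ) else p) + (1 - p)) = (1 - p) ^ #T := by
    have : ∀ i ∈ E, ((if i ∈ T then (0 : ℝ) else p) + (1 - p)) = if i ∈ T then 1 - p else 1 := by
      intro i _
      split_ifs <;> ring
    rw [Finset.prod_congr rfl this, Finset.prod_ite, Finset.prod_const, Finset.prod_const_one,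
      mul_one, Finset.filter_mem_eq_inter, Finset.inter_eq_right.2 hT]
  rw [h1] at h
  rw [h]
  unfold Z
  refine Finset.sum_congr rfl fun S _ => ?_
  beta_reduce
  rw [Finset.prod_const]
  by_cases hd : Disjoint S T
  · rw [if_pos hd, mul_one]
    congr 1
    rw [← Finset.prod_const]
    refine Finset.prod_congr rfl fun i hi => ?_
    rw [if_neg (Finset.disjoint_left.1 hd hi)]
  · rw [if_neg hd, mul_zero]
    obtain ⟨i, hi, hi'⟩ := Finset.not_disjoint_iff.1 hd
    rw [Finset.prod_eq_zero hi (by rw [if_pos hi']), zero_mul]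

lemma Z_one (p : ℝ) (E : Finset ι) : Z p E (fun _ => 1) = 1 := by
  have h := Z_avoid p (Finset.empty_subset E)
  simpa using h

lemma Z_union (p : ℝ) {E E' : Finset ι} (h : Disjoint E E') (F F' : Finset ι → ℝ) :
    Z p (E ∪ E') (fun S => F (S ∩ E) * F' (S ∩ E')) = Z p E F * Z p E' F' := by
  classical
  unfold Z
  rw [Finset.sum_mul_sum, ← Finset.sum_product']
  symm
  refine Finset.sum_bij' (fun a _ => a.1 ∪ a.2) (fun S _ => (S ∩ E, S ∩ E')) ?_ ?_ ?_ ?_ ?_
  · rintro ⟨S, S'⟩ hS
    rw [mem_product, mem_powerset, mem_powerset] at hS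
    exact mem_powerset.2 (Finset.union_subset_union hS.1 hS.2)
  · intro S hS
    rw [mem_product, mem_powerset, mem_powerset]
    exact ⟨inter_subset_right, inter_subset_right⟩
  · rintro ⟨S, S'⟩ hS
    rw [mem_product, mem_powerset, mem_powerset] at hS
    have h1 : S' ∩ E = ∅ := Finset.disjoint_iff_inter_eq_empty.1 (h.symm.mono_left hS.2)
    have h2 : S ∩ E' = ∅ := Finset.disjoint_iff_inter_eq_empty.1 (h.mono_left hS.1)
    simp only [Finset.union_inter_distrib_right, h1, h2, Finset.union_empty, Finset.empty_union,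
      Finset.inter_eq_left.2 hS.1, Finset.inter_eq_left.2 hS.2]
  · intro S hS
    rw [mem_powerset] at hS
    simp only
    rw [← Finset.inter_union_distrib_left, Finset.inter_eq_left.2 hS]
  · rintro ⟨S, S'⟩ hS
    rw [mem_product, mem_powerset, mem_powerset] at hS
    simp only at hS ⊢
    have h1 : S' ∩ E = ∅ := Finset.disjoint_iff_inter_eq_empty.1 (h.symm.mono_left hS.2)
    have h2 : S ∩ E' = ∅ := Finset.disjoint_iff_inter_eq_empty.1 (h.mono_left hS.1)
    have e1 : (S ∪ S') ∩ E = S := by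
      rw [Finset.union_inter_distrib_right, h1, Finset.union_empty, Finset.inter_eq_left.2 hS.1]
    have e2 : (S ∪ S') ∩ E' = S' := by
      rw [Finset.union_inter_distrib_right, h2, Finset.empty_union, Finset.inter_eq_left.2 hS.2]
    have hd : Disjoint S S' := h.mono hS.1 hS.2
    have e3 : #(S ∪ S') = #S + #S' := Finset.card_union_of_disjoint hd
    have e4 : #((E ∪ E') \ (S ∪ S')) = #(E \ S) + #(E' \ S') := by
      rw [Finset.card_sdiff_of_subset (Finset.union_subset_union hS.1 hS.2),
        Finset.card_sdiff_of_subset hS.1, Finset.card_sdiff_of_subset hS.2, e3,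
        Finset.card_union_of_disjoint h]
      have := Finset.card_le_card hS.1
      have := Finset.card_le_card hS.2
      omega
    rw [e1, e2, e3, e4, pow_add, pow_add]
    ring

lemma Z_prod {κ : Type*} [DecidableEq κ] (p : ℝ) (W : Finset κ) (Es : κ → Finset ι)
    (F : κ → Finset ι → ℝ) (hd : ∀ v ∈ W, ∀ w ∈ W, v ≠ w → Disjoint (Es v) (Es w)) :
    ∀ E : Finset ι, (∀ v ∈ W, Es v ⊆ E) →
      Z p E (fun S => ∏ v ∈ W, F v (S ∩ Es v)) = ∏ v ∈ W, Z p (Es v) (F v) := by
  induction W using Finset.induction_on with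
  | empty =>
    intro E _
    simp only [Finset.prod_empty]
    exact Z_one p E
  | insert w W hw ih =>
    intro E hE
    have hEw : Es w ⊆ E := hE w (mem_insert_self _ _)
    have e0 : E = Es w ∪ (E \ Es w) := (Finset.union_sdiff_of_subset hEw).symm
    have hdis : Disjoint (Es w) (E \ Es w) := Finset.disjoint_sdiff
    have hsub : ∀ v ∈ W, Es v ⊆ E \ Es w := by
      intro v hv
      rw [Finset.subset_sdiff]
      exact ⟨hE v (mem_insert_of_mem hv), hd v (mem_insert_of_mem hv) w (mem_insert_self _ _)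
        (fun h => hw (h ▸ hv))⟩
    have h1 := ih (fun v hv u hu => hd v (mem_insert_of_mem hv) u (mem_insert_of_mem hu))
      (E \ Es w) hsub
    rw [Finset.prod_insert hw, ← h1, ← Z_union p hdis, ← e0]
    refine Z_congr fun S hS => ?_
    rw [Finset.prod_insert hw]
    congr 1
    refine Finset.prod_congr rfl fun v hv => ?_
    rw [Finset.inter_assoc, Finset.inter_eq_right.2 (hsub v hv)]

end

variable {V : Type*} [Fintype V] [DecidableEq V]

/-- The pairs joining `v` to the members of `A`. -/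
def eg (v : V) (A : Finset V) : Finset (Sym2 V) := A.image fun a => s(v, a)

omit [Fintype V] in
lemma mem_eg {v : V} {A : Finset V} {e : Sym2 V} : e ∈ eg v A ↔ ∃ a ∈ A, s(v, a) = e := by
  unfold eg
  rw [mem_image]

omit [Fintype V] in
lemma card_eg (v : V) (A : Finset V) : #(eg v A) = #A := by
  unfold eg
  refine Finset.card_image_of_injective _ fun a b h => ?_
  exact (Sym2.congr_right).1 h

omit [Fintype V] in
lemma eg_union (v : V) (A B : Finset V) : eg v (A ∪ B) = eg v A ∪ eg v B := by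
  unfold eg
  rw [Finset.image_union]

lemma eg_sub {v : V} {A : Finset V} (h : v ∉ A) : eg v A ⊆ allE V := by
  intro e he
  obtain ⟨a, ha, rfl⟩ := mem_eg.1 he
  rw [mem_allE, Sym2.mk_isDiag_iff]
  rintro rfl
  exact h ha

lemma adj_iff (G : SimpleGraph V) (v : V) (A : Finset V) :
    (∃ u ∈ A, G.Adj v u) ↔ ¬ Disjoint (ed G) (eg v A) := by
  rw [Finset.not_disjoint_iff]
  constructor
  · rintro ⟨u, hu, h⟩
    refine ⟨s(v, u), ?_, mem_eg.2 ⟨u, hu, rfl⟩⟩
    rw [mem_ed]
    exact h
  · rintro ⟨e, he, he'⟩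
    obtain ⟨u, hu, rfl⟩ := mem_eg.1 he'
    rw [mem_ed] at he
    exact ⟨u, hu, he⟩

/-- Every vertex outside `A ∪ B` has a neighbour in `A` and a neighbour in `B`. -/
def Both (A B : Finset V) (G : SimpleGraph V) : Prop :=
  ∀ v ∉ A ∪ B, (∃ u ∈ A, G.Adj v u) ∧ ∃ u ∈ B, G.Adj v u

/-- The contribution of one vertex. -/
noncomputable def hit (A B : Finset V) (v : V) (S : Finset (Sym2 V)) : ℝ :=
  (1 - (if Disjoint S (eg v A) then 1 else 0)) * (1 - (if Disjoint S (eg v B) then 1 else 0))

open Classical in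
lemma both_eq (A B : Finset V) (G : SimpleGraph V) :
    (if Both A B G then (1 : ℝ) else 0) = ∏ v ∈ (A ∪ B)ᶜ, hit A B v (ed G ∩ eg v (A ∪ B)) := by
  have key : ∀ v, ∀ C ⊆ A ∪ B, (Disjoint (ed G ∩ eg v (A ∪ B)) (eg v C) ↔
      Disjoint (ed G) (eg v C)) := by
    intro v C hC
    constructor
    · intro h
      rw [Finset.disjoint_left] at h ⊢
      intro e he he'
      refine h (mem_inter.2 ⟨he, ?_⟩) he'
      obtain ⟨a, ha, rfl⟩ := mem_eg.1 he'
      exact mem_eg.2 ⟨a, hC ha, rfl⟩
    · exact fun h => h.mono_left inter_subset_left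
  by_cases h : Both A B G
  · rw [if_pos h, Finset.prod_eq_one]
    intro v hv
    obtain ⟨h1, h2⟩ := h v (by simpa using hv)
    rw [adj_iff] at h1 h2
    unfold hit
    rw [if_neg (by rw [key v A subset_union_left]; exact h1),
      if_neg (by rw [key v B subset_union_right]; exact h2)]
    norm_num
  · rw [if_neg h]
    unfold Both at h
    push Not at h
    obtain ⟨v, hv, h⟩ := h
    rw [Finset.prod_eq_zero (i := v)]
    · simpa using hv
    · unfold hit
      by_cases h1 : ∃ u ∈ A, G.Adj v u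
      · have h2 : ¬ ∃ u ∈ B, G.Adj v u := by
          have := h h1
          push Not
          exact this
        rw [adj_iff, not_not] at h2
        rw [if_pos ((key v B subset_union_right).2 h2)]
        ring
      · rw [adj_iff, not_not] at h1
        rw [if_pos ((key v A subset_union_left).2 h1)]
        ring

lemma Z_hit (p : ℝ) (A B : Finset V) (v : V) :
    Z p (eg v (A ∪ B)) (hit A B v) =
      1 - (1 - p) ^ #A - (1 - p) ^ #B + (1 - p) ^ #(A ∪ B) := by
  have h1 : Z p (eg v (A ∪ B)) (hit A B v) =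
      Z p (eg v (A ∪ B)) (fun _ => 1)
        - Z p (eg v (A ∪ B)) (fun S => if Disjoint S (eg v A) then 1 else 0)
        - Z p (eg v (A ∪ B)) (fun S => if Disjoint S (eg v B) then 1 else 0)
        + Z p (eg v (A ∪ B)) (fun S => if Disjoint S (eg v (A ∪ B)) then 1 else 0) := by
    unfold Z
    rw [← Finset.sum_sub_distrib, ← Finset.sum_sub_distrib, ← Finset.sum_add_distrib]
    refine Finset.sum_congr rfl fun S _ => ?_
    unfold hit
    rw [eg_union]
    beta_reduce
    by_cases h1 : Disjoint S (eg v A) <;> by_cases h2 : Disjoint S (eg v B)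
    · rw [if_pos h1, if_pos h2, if_pos (Finset.disjoint_union_right.2 ⟨h1, h2⟩)]
      ring
    · rw [if_pos h1, if_neg h2, if_neg (fun h => h2 (Finset.disjoint_union_right.1 h).2)]
      ring
    · rw [if_neg h1, if_pos h2, if_neg (fun h => h1 (Finset.disjoint_union_right.1 h).1)]
      ring
    · rw [if_neg h1, if_neg h2, if_neg (fun h => h1 (Finset.disjoint_union_right.1 h).1)]
      ring
  rw [h1, Z_one, Z_avoid p (by rw [eg_union]; exact subset_union_left),
    Z_avoid p (by rw [eg_union]; exact subset_union_right), Z_avoid p subset_rfl, card_eg, card_eg,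
    card_eg]

omit [Fintype V] in
lemma eg_disj {A : Finset V} {v w : V} (_ : v ∉ A) (hw : w ∉ A) (h : v ≠ w) :
    Disjoint (eg v A) (eg w A) := by
  rw [Finset.disjoint_left]
  intro e he he'
  obtain ⟨a, ha, rfl⟩ := mem_eg.1 he
  obtain ⟨b, hb, h1⟩ := mem_eg.1 he'
  rw [Sym2.eq_iff] at h1
  rcases h1 with ⟨h1, -⟩ | ⟨h1, h2⟩
  · exact h h1.symm
  · exact hw (h1 ▸ ha)

/-- Weighted sums over graphs as expectations over subsets. -/
lemma sum_gw_eq (p : ℝ) (F : Finset (Sym2 V) → ℝ) :
    ∑ G : SimpleGraph V, gw p G * F (ed G) = Z p (allE V) F := by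
  unfold Z gw
  exact sum_graph (V := V) (fun S => p ^ #S * (1 - p) ^ #(allE V \ S) * F S)

open Classical in
/-- The probability of `Both A B`. -/
lemma sum_both (p : ℝ) (A B : Finset V) :
    ∑ G : SimpleGraph V, gw p G * (if Both A B G then 1 else 0) =
      (1 - (1 - p) ^ #A - (1 - p) ^ #B + (1 - p) ^ #(A ∪ B)) ^ (Fintype.card V - #(A ∪ B)) := by
  simp_rw [both_eq]
  rw [sum_gw_eq p (fun S => ∏ v ∈ (A ∪ B)ᶜ, hit A B v (S ∩ eg v (A ∪ B))),
    Z_prod p ((A ∪ B)ᶜ) (fun v => eg v (A ∪ B)) (hit A B)]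
  · simp_rw [Z_hit]
    rw [Finset.prod_const, Finset.card_compl]
  · intro v hv w hw hne
    exact eg_disj (by simpa using hv) (by simpa using hw) hne
  · intro v hv
    exact eg_sub (by simpa using hv)

end Pool.Agent.V11328.DG
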